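import Pool.Agent.TH600.LE.Root
import Pool.Agent.TH600.LM.PDich

/-!
# Entire functions built by exponentials and integration

Finitely many entire functions which are obtained from the constants by additions, multiplications,
exponentials and integrations lie in a purely transcendental extension of the field of complex
numbers, together with all gap series in one of these functions.
-/

set_option autoImplicit false

namespace Pool.Agent.TH600.LE

open Filter Topology MvPolynomial
open Pool.Agent.TH600.LC hiding evS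
open Pool.Agent.TH600.LM
open Pool.Agent.TH143.EL hiding evS

/-- The entire functions which are obtained from the constants by additions, multiplications,
exponentials and integrations. -/
inductive ExpPrim : (ℂ → ℂ) → Prop
  | const (c : ℂ) : ExpPrim (fun _ => c)
  | add {f g : ℂ → ℂ} : ExpPrim f → ExpPrim g → ExpPrim (fun z => f z + g z)
  | mul {f g : ℂ → ℂ} : ExpPrim f → ExpPrim g → ExpPrim (fun z => f z * g z)
  | exp {f : ℂ → ℂ} : ExpPrim f → ExpPrim (fun z => Complex.exp (f z))
  | prim {F : ℂ → ℂ} : Differentiable ℂ F → ExpPrim (deriv F) → ExpPrim F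

theorem ExpPrim.diff {f : ℂ → ℂ} (hf : ExpPrim f) : Differentiable ℂ f := by
  induction hf with
  | const c => exact differentiable_const c
  | add _ _ h1 h2 => exact h1.add h2
  | mul _ _ h1 h2 => exact h1.mul h2
  | exp _ h1 => exact h1.cexp
  | prim h _ _ => exact h

/-- entire functions -/
def EntS : Submodule ℂ (ℂ → ℂ) where
  carrier := {f | Differentiable ℂ f}
  add_mem' := fun h1 h2 => h1.add h2
  zero_mem' := differentiable_const 0
  smul_mem' := fun c _ hf => hf.const_smul c

/-- the class of an entire function -/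
noncomputable def eι : EntS →ₗ[ℂ] MK where
  toFun u := cl u.1 (mero_of_diff u.2)
  map_add' := fun u v => (cl_add (mero_of_diff u.2) (mero_of_diff v.2)).symm
  map_smul' := fun c u => by
    rw [RingHom.id_apply, Algebra.smul_def, ← cl_const, cl_mul]
    rfl

/-- the class of the exponential of an entire function -/
noncomputable def eex (u : EntS) : MK :=
  cl (fun z => Complex.exp (u.1 z)) (mero_of_diff (Differentiable.cexp u.2))

theorem const_MD : Const MDer := by
  intro x hx
  obtain ⟨f, hf, rfl⟩ := cl_surj x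
  rw [MDer_apply, MD_cl, cl_eq_zero] at hx
  have h1 : ∀ᶠ z in codiscrete ℂ, AnalyticAt ℂ f z ∧ deriv f z = 0 := (mero_an hf).and hx
  set V : Set ℂ := {z | AnalyticAt ℂ f z ∧ deriv f z = 0} with hV
  have hVc : V ∈ codiscrete ℂ := h1
  obtain ⟨z0, hz0⟩ := codis_ne hVc
  refine ⟨f z0, ?_⟩
  rw [← cl_const, cl_eq]
  filter_upwards [hVc] with z hz
  exact (codis_open hVc).is_const_of_deriv_eq_zero (codis_pre hVc)
    (fun w hw => hw.1.differentiableAt.differentiableWithinAt) (fun w hw => hw.2) hz hz0

theorem expData : ExpData MDer eι eex where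
  add := fun u v => by
    rw [eex, eex, eex, cl_mul, cl_eq]
    exact Eventually.of_forall fun z => Complex.exp_add (u.1 z) (v.1 z)
  zero := by
    have h1 : (1 : MK) = cl (fun _ => 1) (Meromorphic.const 1) := by rw [cl_const, map_one]
    rw [h1, eex, cl_eq]
    exact Eventually.of_forall fun z => Complex.exp_zero
  der := fun u => by
    rw [MDer_apply, MDer_apply]
    have h1 : MD (eι u) = cl (deriv u.1) (mero_of_diff u.2).deriv := MD_cl _
    rw [h1, eex, MD_cl, cl_mul, cl_eq]
    refine Eventually.of_forall fun z => ?_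
    have h2 : DifferentiableAt ℂ u.1 z := u.2 z
    have h3 := h2.hasDerivAt.cexp.deriv
    rw [h3, Pi.mul_apply, mul_comm]
  const := fun u c hc => by
    refine ⟨Complex.exp c, ?_⟩
    have h1 : eι u = cl u.1 (mero_of_diff u.2) := rfl
    rw [h1, ← cl_const, cl_eq] at hc
    rw [← cl_const, eex, cl_eq]
    filter_upwards [hc] with z hz
    rw [hz]
  hconst := const_MD

/-- towers of exponentials and primitives of meromorphic functions -/
abbrev GoodM (A : Subalgebra ℂ MK) : Prop := Good MDer eι eex A

theorem ExpPrim.exists_good {f : ℂ → ℂ} (hf : ExpPrim f) :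
    ∀ A : Subalgebra ℂ MK, GoodM A → ∃ A' : Subalgebra ℂ MK, GoodM A' ∧ A ≤ A' ∧
      cl f (mero_of_diff hf.diff) ∈ A' := by
  induction hf with
  | const c =>
    intro A hA
    refine ⟨A, hA, le_rfl, ?_⟩
    rw [cl_const]
    exact A.algebraMap_mem c
  | @add f g hf hg h1 h2 =>
    intro A hA
    obtain ⟨A₁, hA₁, hle₁, hf₁⟩ := h1 A hA
    obtain ⟨A₂, hA₂, hle₂, hg₂⟩ := h2 A₁ hA₁
    exact ⟨A₂, hA₂, hle₁.trans hle₂, A₂.add_mem (hle₂ hf₁) hg₂⟩
  | @mul f g hf hg h1 h2 =>
    intro A hA
    obtain ⟨A₁, hA₁, hle₁, hf₁⟩ := h1 A hA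
    obtain ⟨A₂, hA₂, hle₂, hg₂⟩ := h2 A₁ hA₁
    exact ⟨A₂, hA₂, hle₁.trans hle₂, A₂.mul_mem (hle₂ hf₁) hg₂⟩
  | @exp f hf h1 =>
    intro A hA
    obtain ⟨A₁, hA₁, hle₁, hf₁⟩ := h1 A hA
    let u : EntS := ⟨f, hf.diff⟩
    by_cases h2 : IsAlgebraic A₁ (eex u)
    · obtain ⟨A₂, hA₂, hle₂, hu⟩ := Good.root expData hA₁ (u := u) hf₁ h2
      exact ⟨A₂, hA₂, hle₁.trans hle₂, hu⟩
    · exact ⟨Lau A₁ (eex u), Good.expo hA₁ (w := u) hf₁ h2, hle₁.trans (le_Lau A₁ _),
        self_Lau A₁ _⟩
  | @prim F hF hF' h1 =>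
    intro A hA
    obtain ⟨A₁, hA₁, hle₁, hf₁⟩ := h1 A hA
    have h3 : MDer (cl F (mero_of_diff hF)) ∈ A₁ := by
      rw [MDer_apply, MD_cl]
      exact hf₁
    by_cases h2 : IsAlgebraic A₁ (cl F (mero_of_diff hF))
    · exact ⟨A₁, hA₁, hle₁, Good.prim_mem expData hA₁ h3 h2⟩
    · exact ⟨Pol A₁ (cl F (mero_of_diff hF)), Good.prim hA₁ h2 h3, hle₁.trans (le_Pol A₁ _),
        self_Pol A₁ _⟩

theorem exists_good_fin {n : ℕ} {y : ℂ → Fin n → ℂ} (hy : ∀ i, ExpPrim (fun z => y z i)) :
    ∃ A : Subalgebra ℂ MK, GoodM A ∧ ∀ i, cl (fun z => y z i) (mero_of_diff (hy i).diff) ∈ A := by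
  have h : ∀ S : Finset (Fin n), ∃ A : Subalgebra ℂ MK, GoodM A ∧
      ∀ i ∈ S, cl (fun z => y z i) (mero_of_diff (hy i).diff) ∈ A := by
    classical
    intro S
    induction S using Finset.induction_on with
    | empty => exact ⟨⊥, Good.base, fun i hi => absurd hi (Finset.notMem_empty i)⟩
    | insert j S hj ih =>
      obtain ⟨A, hA, h1⟩ := ih
      obtain ⟨A', hA', hle, h2⟩ := (hy j).exists_good A hA
      refine ⟨A', hA', fun i hi => ?_⟩
      rcases Finset.mem_insert.1 hi with rfl | hi
      · exact h2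
      · exact hle (h1 i hi)
  obtain ⟨A, hA, h1⟩ := h Finset.univ
  exact ⟨A, hA, fun i => h1 i (Finset.mem_univ i)⟩

section basis

variable {k E U : Type} [Field k] [Field E] [Algebra k E] [AddCommGroup U] [Module k U]
  {D : Derivation k E E} {ι : U →ₗ[k] E} {ex : U → E}

/-- the elements of a tower are rational functions of algebraically independent elements -/
theorem Good.basis (h : ExpData D ι ex) {A : Subalgebra k E} (hA : Good D ι ex A) :
    ∃ (σ : Type) (_ : Finite σ) (s : σ → E), AlgebraicIndependent k s ∧ (∀ i, s i ∈ A) ∧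
      A ≤ (IntermediateField.adjoin k (Set.range s)).toSubalgebra := by
  have key : ∀ {A : Subalgebra k E} {σ : Type} {s : σ → E} {t : E}, AlgebraicIndependent k s →
      (∀ i, s i ∈ A) → Transcendental A t →
      AlgebraicIndependent k (fun o : Option σ => o.elim t s) := by
    intro A σ s t hs hsA ht
    rw [hs.option_iff_transcendental]
    apply trans_ext (A := A) ?_ ht
    intro x hx
    have h1 : Algebra.adjoin k (Set.range s) ≤ A := Algebra.adjoin_le (by
      rintro _ ⟨i, rfl⟩
      exact hsA i)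
    exact isAlgebraic_algebraMap (⟨x, h1 hx⟩ : A)
  have key2 : ∀ {A : Subalgebra k E} {σ : Type} {s : σ → E} {t : E},
      A ≤ (IntermediateField.adjoin k (Set.range s)).toSubalgebra →
      A ≤ (IntermediateField.adjoin k
        (Set.range fun o : Option σ => o.elim t s)).toSubalgebra := by
    intro A σ s t hle x hx
    have h1 : IntermediateField.adjoin k (Set.range s) ≤ IntermediateField.adjoin k
        (Set.range fun o : Option σ => o.elim t s) := by
      apply IntermediateField.adjoin.mono
      rintro _ ⟨i, rfl⟩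
      exact ⟨some i, rfl⟩
    exact h1 (hle hx)
  have key3 : ∀ {σ : Type} {s : σ → E} {t : E}, t ∈ IntermediateField.adjoin k
      (Set.range fun o : Option σ => o.elim t s) := by
    intro σ s t
    exact IntermediateField.subset_adjoin _ _ ⟨none, rfl⟩
  induction hA with
  | base =>
    refine ⟨Empty, inferInstance, fun i => i.elim, ?_, fun i => i.elim, bot_le⟩
    rw [algebraicIndependent_empty_type_iff]
    exact (algebraMap k E).injective
  | @prim A t hA htr ht ih =>
    obtain ⟨σ, hσ, s, hs, hsA, hle⟩ := ih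
    refine ⟨Option σ, inferInstance, fun o => o.elim t s, key hs hsA htr, ?_,
      Pol_le (key2 hle) key3⟩
    rintro (_ | i)
    · exact self_Pol A t
    · exact le_Pol A t (hsA i)
  | @expo A w hA hw htr ih =>
    obtain ⟨σ, hσ, s, hs, hsA, hle⟩ := ih
    refine ⟨Option σ, inferInstance, fun o => o.elim (ex w) s, key hs hsA htr, ?_,
      Lau_le (key2 hle) (h.ne w) key3 ((IntermediateField.adjoin k _).inv_mem key3)⟩
    rintro (_ | i)
    · exact self_Lau A _
    · exact le_Lau A _ (hsA i)

end basis

end Pool.Agent.TH600.LE
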