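import Pool.Agent.TH600.LE.Gap

/-!
# Entire curves with coordinates in a purely transcendental field
-/

set_option autoImplicit false

namespace Pool.Agent.TH600.LE

open Filter Topology MvPolynomial
open scoped LinearAlgebra.Projectivization
open Pool.Agent.TH600.LC hiding evS
open Pool.Agent.TH600.LM
open Pool.Agent.TH143.EL hiding evS
open Pool.Agent.TH143.HE (RatCurvesIn IsPtP NonConst)

variable {N : ℕ}

theorem inV_span_iff {G : MvPolynomial (Fin (N + 1)) ℂ} (hG : ∃ d, G.IsHomogeneous d)
    {p : ℙ ℂ (Fin (N + 1) → ℂ)} : InV (Ideal.span {G}) p ↔ eval p.rep G = 0 := by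
  constructor
  · intro h
    exact h G (Ideal.mem_span_singleton_self G) hG
  · intro h G' hG' _
    obtain ⟨H, rfl⟩ := Ideal.mem_span_singleton.1 hG'
    rw [map_mul, h, zero_mul]

theorem vanish_iff {f : ℂ → ℙ ℂ (Fin (N + 1) → ℂ)} (hf : HolMap f) {h : ℂ → Fin (N + 1) → ℂ}
    (hr : ∀ᶠ z in codiscrete ℂ, Rep (f z) (h z)) {G : MvPolynomial (Fin (N + 1)) ℂ}
    (hG : ∃ d, G.IsHomogeneous d) :
    (∀ z, eval (f z).rep G = 0) ↔ ∀ᶠ z in codiscrete ℂ, eval (h z) G = 0 := by
  have h1 : ∀ z, Rep (f z) (h z) → (eval (f z).rep G = 0 ↔ eval (h z) G = 0) := by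
    intro z hz
    rw [← inV_span_iff hG, inV_iff hz]
    constructor
    · intro h2
      exact h2 G (Ideal.mem_span_singleton_self G) hG
    · intro h2 G' hG' _
      obtain ⟨H, rfl⟩ := Ideal.mem_span_singleton.1 hG'
      rw [map_mul, h2, zero_mul]
  constructor
  · intro h2
    filter_upwards [hr] with z hz
    exact (h1 z hz).1 (h2 z)
  · intro h2 z
    rw [← inV_span_iff hG]
    apply inV_of_punct hf
    filter_upwards [codis_ev h2 z, codis_ev hr z] with w h3 h4
    rw [inV_span_iff hG]
    exact (h1 w h4).2 h3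

/-- **Unirational closure.** -/
theorem unirational_closure {f : ℂ → ℙ ℂ (Fin (N + 1) → ℂ)} (hf : HolMap f)
    {h : ℂ → Fin (N + 1) → ℂ} (hm : ∀ j, Meromorphic (fun z => h z j))
    (hr : ∀ᶠ z in codiscrete ℂ, Rep (f z) (h z)) {M : ℕ} {x : Fin M → MK}
    (hx : AlgebraicIndependent ℂ x)
    (hhx : ∀ j, cl (fun z => h z j) (hm j) ∈ IntermediateField.adjoin ℂ (Set.range x)) :
    ∃ F : Fin (N + 1) → MvPolynomial (Fin M) ℂ, (∃ j, F j ≠ 0) ∧
      ∀ G : MvPolynomial (Fin (N + 1)) ℂ, (∃ d, G.IsHomogeneous d) →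
        ((∀ z, eval (f z).rep G = 0) ↔ ∀ v : Fin M → ℂ, eval (fun j => eval v (F j)) G = 0) := by
  classical
  have h1 : ∀ j, ∃ r s : MvPolynomial (Fin M) ℂ, aeval x s ≠ 0 ∧
      cl (fun z => h z j) (hm j) * aeval x s = aeval x r := by
    intro j
    obtain ⟨r, s, hrs⟩ := (IntermediateField.mem_adjoin_range_iff ℂ x _).1 (hhx j)
    by_cases hs : aeval x s = 0
    · refine ⟨0, 1, by rw [map_one]; exact one_ne_zero, ?_⟩
      rw [hrs, hs, div_zero, zero_mul, map_zero]
    · exact ⟨r, s, hs, by rw [hrs, div_mul_cancel₀ _ hs]⟩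
  choose r s hs hrs using h1
  set D : MvPolynomial (Fin M) ℂ := ∏ j, s j with hD
  have hD0 : aeval x D ≠ 0 := by
    rw [hD, map_prod]
    exact Finset.prod_ne_zero_iff.2 fun j _ => hs j
  let F : Fin (N + 1) → MvPolynomial (Fin M) ℂ := fun j => r j * ∏ i ∈ Finset.univ.erase j, s i
  have hF : ∀ j, aeval x (F j) = aeval x D * cl (fun z => h z j) (hm j) := by
    intro j
    have h2 : D = s j * ∏ i ∈ Finset.univ.erase j, s i :=
      (Finset.mul_prod_erase _ _ (Finset.mem_univ j)).symm
    rw [h2, map_mul, map_mul, ← hrs j]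
    ring
  have hbind : ∀ G : MvPolynomial (Fin (N + 1)) ℂ, (∃ d, G.IsHomogeneous d) →
      ((∀ᶠ z in codiscrete ℂ, eval (h z) G = 0) ↔ bind₁ F G = 0) := by
    rintro G ⟨d, hd⟩
    have h2 : aeval x (bind₁ F G) = aeval (fun j => aeval x (F j)) G := by
      rw [aeval_bind₁]
    have h3 : aeval (fun j => aeval x (F j)) G =
        aeval x D ^ d * aeval (fun j => cl (fun z => h z j) (hm j)) G := by
      have h4 : (fun j => aeval x (F j)) =
          fun j => aeval x D * cl (fun z => h z j) (hm j) := funext hF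
      rw [h4]
      have h5 := Pool.Agent.TH143.HE.eval₂_smul_homog (algebraMap ℂ MK) (aeval x D)
        (fun j => cl (fun z => h z j) (hm j)) hd
      rw [aeval_def, aeval_def]
      exact h5
    have h6 := aeval_cl (σ := Fin (N + 1)) (fun j z => h z j) hm G
    constructor
    · intro h7
      have h8 : aeval (fun j => cl (fun z => h z j) (hm j)) G = 0 := by
        rw [h6, cl_eq_zero]
        exact h7
      have h9 : aeval x (bind₁ F G) = 0 := by rw [h2, h3, h8, mul_zero]
      exact hx (by rw [h9, map_zero])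
    · intro h7
      rw [h7, map_zero, h3] at h2
      have h8 := (mul_eq_zero.1 h2.symm).resolve_left (pow_ne_zero _ hD0)
      rw [h6, cl_eq_zero] at h8
      exact h8
  refine ⟨F, ?_, fun G hG => ?_⟩
  · by_contra hcon
    push Not at hcon
    have h2 : ∀ j, ∀ᶠ z in codiscrete ℂ, h z j = 0 := by
      intro j
      have h3 := hF j
      rw [hcon j, map_zero] at h3
      exact cl_eq_zero.1 ((mul_eq_zero.1 h3.symm).resolve_left hD0)
    obtain ⟨z, hz1, hz2⟩ := ((eventually_all.2 h2).and hr).exists
    exact hz2.1 (funext hz1)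
  · rw [vanish_iff hf hr hG, hbind G hG]
    have h2 : ∀ v : Fin M → ℂ, eval v (bind₁ F G) = eval (fun j => eval v (F j)) G := by
      intro v
      rw [eval, eval₂Hom_bind₁]
      rfl
    constructor
    · intro h3 v
      rw [← h2, h3, map_zero]
    · intro h3
      apply MvPolynomial.funext
      intro v
      rw [h2, h3, map_zero]

/-- **Rational curves.** -/
theorem rat_of_closure {I I' : Ideal (MvPolynomial (Fin (N + 1)) ℂ)}
    (hR : RatCurvesIn (RingHom.id ℂ) I I') {f : ℂ → ℙ ℂ (Fin (N + 1) → ℂ)} {M : ℕ}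
    {F : Fin (N + 1) → MvPolynomial (Fin M) ℂ} (hF0 : ∃ j, F j ≠ 0)
    (hF : ∀ G : MvPolynomial (Fin (N + 1)) ℂ, (∃ d, G.IsHomogeneous d) →
        ((∀ z, eval (f z).rep G = 0) ↔ ∀ v : Fin M → ℂ, eval (fun j => eval v (F j)) G = 0))
    (hI : ∀ z, InV I (f z)) (hnc : ∃ z w, f z ≠ f w) : ∀ z, InV I' (f z) := by
  classical
  obtain ⟨l, hl⟩ := hF0
  obtain ⟨w0, hw0⟩ : ∃ w, eval w (F l) ≠ 0 := by
    by_contra hcon
    push Not at hcon
    exact hl (MvPolynomial.funext fun v => by rw [hcon v, map_zero])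
  -- the parametrization is not constant
  have hne : ∃ v w j k, eval v (F j) * eval w (F k) ≠ eval v (F k) * eval w (F j) := by
    by_contra hcon
    push Not at hcon
    obtain ⟨z, w, hzw⟩ := hnc
    apply hzw
    have h1 : ∀ y : ℂ, ∀ j, (f y).rep j * eval w0 (F l) = (f y).rep l * eval w0 (F j) := by
      intro y j
      have hG : (X j * C (eval w0 (F l)) - X l * C (eval w0 (F j)) :
          MvPolynomial (Fin (N + 1)) ℂ).IsHomogeneous 1 := by
        have h2 : ∀ (i : Fin (N + 1)) (c : ℂ),
            (X i * C c : MvPolynomial (Fin (N + 1)) ℂ).IsHomogeneous 1 := by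
          intro i c
          have h3 := (isHomogeneous_X ℂ i).mul (isHomogeneous_C (Fin (N + 1)) c)
          simpa using h3
        exact (h2 _ _).sub (h2 _ _)
      have h2 := (hF _ ⟨1, hG⟩).2 (fun v => by
        simp only [map_sub, map_mul, eval_X, eval_C]
        rw [hcon v w0 j l]
        ring) y
      simp only [map_sub, map_mul, eval_X, eval_C] at h2
      exact sub_eq_zero.1 h2
    have h2 : ∀ y, Rep (f y) fun j => eval w0 (F j) := by
      intro y
      rw [rep_iff (rep_rep (f y))]
      refine ⟨fun h0 => hw0 (congrFun h0 l), fun j k => ?_⟩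
      have h3 := h1 y j
      have h4 := h1 y k
      have h5 : eval w0 (F l) * ((f y).rep j * eval w0 (F k)) =
          eval w0 (F l) * ((f y).rep k * eval w0 (F j)) := by
        linear_combination eval w0 (F k) * h3 - eval w0 (F j) * h4
      exact mul_left_cancel₀ hw0 h5
    exact rep_eq (h2 z) (h2 w)
  -- the parametrization lies in the variety
  have hFI : ∀ G ∈ I, (∃ d, G.IsHomogeneous d) → ∀ v, eval (fun j => eval v (F j)) G = 0 :=
    fun G hG hGh => (hF G hGh).1 fun z => hI z G hG hGh
  have key : ∀ v, (fun j => eval v (F j)) ≠ 0 → ∀ G ∈ I', (∃ d, G.IsHomogeneous d) →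
      eval (fun j => eval v (F j)) G = 0 := by
    intro v hv G hG hGh
    obtain ⟨w, j, k, hw⟩ : ∃ w j k, eval v (F j) * eval w (F k) ≠ eval v (F k) * eval w (F j) := by
      by_contra hcon
      push Not at hcon
      obtain ⟨i, hi⟩ := Function.ne_iff.1 hv
      have hi' : eval v (F i) ≠ 0 := hi
      obtain ⟨v1, w1, j, k, h1⟩ := hne
      apply h1
      have e1 := hcon v1 i j
      have e2 := hcon v1 i k
      have e3 := hcon w1 i j
      have e4 := hcon w1 i k
      have h5 : (eval v (F i) * eval v (F i)) * (eval v1 (F j) * eval w1 (F k)) =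
          (eval v (F i) * eval v (F i)) * (eval v1 (F k) * eval w1 (F j)) := by
        have e5 : (eval v (F i) * eval v (F i)) * (eval v1 (F j) * eval w1 (F k)) =
          (eval v (F i) * eval v1 (F j)) * (eval v (F i) * eval w1 (F k)) := by ring
        have e6 : (eval v (F i) * eval v (F i)) * (eval v1 (F k) * eval w1 (F j)) =
          (eval v (F i) * eval v1 (F k)) * (eval v (F i) * eval w1 (F j)) := by ring
        rw [e5, e6, e1, e2, e3, e4]
        ring
      exact mul_left_cancel₀ (mul_ne_zero hi' hi') h5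
    let V : Fin M → Polynomial ℂ := fun i => Polynomial.C (v i) +
      Polynomial.X * Polynomial.C (w i - v i)
    let P : Fin (N + 1) → Polynomial ℂ := fun j => aeval V (F j)
    have hP : ∀ j t, (P j).eval t = eval (fun i => v i + t * (w i - v i)) (F j) := by
      intro j t
      have h1 := MvPolynomial.comp_aeval_apply (f := V) (Polynomial.aeval t) (F j)
      rw [Polynomial.coe_aeval_eq_eval] at h1
      rw [h1, MvPolynomial.aeval_eq_eval]
      congr 2
      funext i
      simp [V]
    have hP0 : ∀ j, (P j).eval 0 = eval v (F j) := by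
      intro j
      rw [hP]
      congr 2
      funext i
      ring
    have hP1 : ∀ j, (P j).eval 1 = eval w (F j) := by
      intro j
      rw [hP]
      congr 2
      funext i
      ring
    have h3 := hR P (fun u G hG hGh => by
      rw [eval₂_id]
      have e1 : (fun j => (P j).eval u) =
          fun j => eval (fun i => v i + u * (w i - v i)) (F j) := funext fun j => hP j u
      rw [e1]
      exact hFI G hG hGh _) ⟨j, k, 0, 1, by
        rw [hP0, hP0, hP1, hP1]
        exact hw⟩ 0 G hG hGh
    rw [eval₂_id] at h3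
    have e1 : (fun j => (P j).eval 0) = fun j => eval v (F j) := funext hP0
    rw [e1] at h3
    exact h3
  intro z G hG hGh
  have h2 : ∀ v : Fin M → ℂ, eval v (bind₁ F G) = eval (fun j => eval v (F j)) G := by
    intro v
    rw [eval, eval₂Hom_bind₁]
    rfl
  have h3 : F l * bind₁ F G = 0 := by
    apply MvPolynomial.funext
    intro v
    rw [map_mul, h2, map_zero]
    by_cases hv : (fun j => eval v (F j)) = 0
    · rw [show eval v (F l) = 0 from congrFun hv l, zero_mul]
    · rw [key v hv G hG hGh, mul_zero]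
  have h4 := (mul_eq_zero.1 h3).resolve_left hl
  exact (hF G hGh).2 (fun v => by rw [← h2, h4, map_zero]) z

end Pool.Agent.TH600.LE
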