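import Pool.Agent.TH600.LE.Ent

/-!
# Gap series in a function of a tower
-/

set_option autoImplicit false

namespace Pool.Agent.TH600.LE

open Filter Topology MvPolynomial
open Pool.Agent.TH600.LC hiding evS
open Pool.Agent.TH600.LM
open Pool.Agent.TH143.EL hiding evS

theorem adjoin_le_clo' {k E : Type} [Field k] [Field E] [Algebra k E] {S : Set E} {x : E}
    (hx : x ∈ IntermediateField.adjoin k S) : x ∈ clo k S := by
  obtain ⟨r, hr, s, hs, rfl⟩ := IntermediateField.mem_adjoin_iff_div.1 hx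
  rw [div_eq_mul_inv]
  exact (clo k S).mul_mem (adjoin_le_clo S hr) (inv_mem_clo (adjoin_le_clo S hs))

variable {ψ : ℂ → ℂ} {m : ℕ}

/-- **Joint independence.** -/
theorem joint (hψ : Differentiable ℂ ψ) (hn : NCE ψ) {g : ℂ → Fin m → ℂ}
    (hg : ∀ i, HadamardGaps 0 (fun z => g z i)) {σ : Type} [Finite σ] {s : σ → MK}
    (hs : AlgebraicIndependent ℂ s) {A : Subalgebra ℂ MK} (hA : ∀ x ∈ A, MDer x ∈ A)
    (hsA : ∀ i, s i ∈ A)
    (hle : A ≤ (IntermediateField.adjoin ℂ (Set.range s)).toSubalgebra)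
    (hψA : cl ψ (mero_of_diff hψ) ∈ A) :
    ∃ I : Finset (Fin m), AlgebraicIndependent ℂ (Sum.elim
      (fun l : I => cl (fun z => g (ψ z) l) (mero_of_diff (((hg l).1).comp hψ))) s) ∧
      ∀ i, cl (fun z => g (ψ z) i) (mero_of_diff (((hg i).1).comp hψ)) ∈
        IntermediateField.adjoin ℂ (Set.range (Sum.elim
          (fun l : I => cl (fun z => g (ψ z) l) (mero_of_diff (((hg l).1).comp hψ))) s)) := by
  classical
  let i0 := algPsi hψ hn
  have hE := psEmb hψ hn
  obtain ⟨I, a, p, b, hI, ha, hrel⟩ := exists_rel (tser g)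
  let T : Set MK := Set.range s
  have hT : T.Finite := Set.finite_range s
  have hAT : ∀ x ∈ A, x ∈ clo ℂ T := fun x hx => adjoin_le_clo' (hle hx)
  have hc : ∀ c : ℂ, ∃ c' : KK ℂ, algebraMap (KK ℂ) MK c' = algebraMap ℂ MK c := by
    intro c
    refine ⟨algebraMap (Polynomial ℂ) (KK ℂ) (Polynomial.C c), ?_⟩
    rw [← hE.Φ_pS]
    change Ph hψ (polE (Polynomial.C c)) = _
    rw [Ph_polE, ← cl_const, cl_eq]
    exact Eventually.of_forall fun z => by rw [Polynomial.eval_C]
  have hψT : cl ψ (mero_of_diff hψ) ∈ clo (KK ℂ) T ∧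
      cl (deriv ψ) (mero_of_diff hψ).deriv ∈ clo (KK ℂ) T := by
    refine ⟨clo_base hc (hAT _ hψA), clo_base hc (hAT _ ?_)⟩
    have h1 := hA _ hψA
    rw [MDer_apply, MD_cl] at h1
    exact h1
  have hTD' : ∀ t ∈ T, DPsi hψ t ∈ clo (KK ℂ) T := by
    rintro t ⟨i, rfl⟩
    rw [DPsi, mulDer_apply, div_eq_mul_inv]
    exact (clo (KK ℂ) T).mul_mem ((clo (KK ℂ) T).mul_mem hψT.1 (inv_mem_clo hψT.2))
      (clo_base hc (hAT _ (hA _ (hsA i))))
  let gE : Fin m → EntSub := fun i => ⟨tser g i, ent_tser (hg i).1⟩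
  have hgE : ∀ i, Ph hψ (gE i) = cl (fun z => g (ψ z) i)
      (mero_of_diff (((hg i).1).comp hψ)) := by
    intro i
    rw [Ph_apply, cl_eq]
    exact Eventually.of_forall fun z => ev_tser (hg i).1 (ψ z)
  have hsp : Sparse {n | ∃ i, PowerSeries.coeff n (gE i : PowerSeries ℂ) ≠ 0} := sparse_tser hg
  -- independence over the tower
  have hind : AlgebraicIndependent (Algebra.adjoin ℂ (Set.range s))
      (fun l : I => cl (fun z => g (ψ z) l) (mero_of_diff (((hg l).1).comp hψ))) := by
    rw [algebraicIndependent_iff]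
    intro P hP
    have h1 : MvPolynomial.eval₂ (algebraMap (Algebra.adjoin ℂ (Set.range s)) MK)
        (fun l : I => Ph hψ (gE l)) P = 0 := by
      rw [← hP, aeval_def]
      congr 1
      funext l
      exact hgE l
    have h2 := hE.family gE hsp hI (D := DPsi hψ) (fun u => DPsi_Ph hψ hn u)
      (DPsi_stable hψ hn) hT hTD' (algebraMap (Algebra.adjoin ℂ (Set.range s)) MK)
      (fun r => clo_base hc (adjoin_le_clo T r.2)) P h1
    have h3 : Function.Injective (MvPolynomial.map (σ := I)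
        (algebraMap (Algebra.adjoin ℂ (Set.range s)) MK)) :=
      MvPolynomial.map_injective _ (FaithfulSMul.algebraMap_injective _ _)
    exact h3 (by rw [h2, map_zero])
  refine ⟨I, hs.sumElim hind, fun i => ?_⟩
  set F := IntermediateField.adjoin ℂ (Set.range (Sum.elim
    (fun l : I => cl (fun z => g (ψ z) l) (mero_of_diff (((hg l).1).comp hψ))) s)) with hF
  have hAF : A ≤ F.toSubalgebra := by
    intro x hx
    have h1 : IntermediateField.adjoin ℂ (Set.range s) ≤ F := by
      apply IntermediateField.adjoin.mono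
      rintro _ ⟨i, rfl⟩
      exact ⟨Sum.inr i, rfl⟩
    exact h1 (hle hx)
  have hlF : ∀ l : I, cl (fun z => g (ψ z) l) (mero_of_diff (((hg l).1).comp hψ)) ∈ F :=
    fun l => IntermediateField.subset_adjoin _ _ ⟨Sum.inl l, rfl⟩
  have hpF : ∀ q : Polynomial ℂ, Ph hψ (polE q) ∈ F := by
    intro q
    have h1 : Ph hψ (polE q) = Polynomial.aeval (cl ψ (mero_of_diff hψ)) q := by
      have h2 : (Ph hψ).comp polE =
          ((Polynomial.aeval (cl ψ (mero_of_diff hψ)) : Polynomial ℂ →ₐ[ℂ] MK) :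
            Polynomial ℂ →+* MK) := by
        apply Polynomial.ringHom_ext
        · intro c
          have h3 : ((Ph hψ).comp polE) (Polynomial.C c) = Ph hψ (polE (Polynomial.C c)) := rfl
          have h4 : ((Polynomial.aeval (cl ψ (mero_of_diff hψ)) : Polynomial ℂ →ₐ[ℂ] MK) :
            Polynomial ℂ →+* MK) (Polynomial.C c) = algebraMap ℂ MK c := Polynomial.aeval_C _ _
          rw [h3, h4, Ph_polE, ← cl_const, cl_eq]
          exact Eventually.of_forall fun z => by rw [Polynomial.eval_C]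
        · have h3 : ((Ph hψ).comp polE) Polynomial.X = Ph hψ (polE Polynomial.X) := rfl
          have h4 : ((Polynomial.aeval (cl ψ (mero_of_diff hψ)) : Polynomial ℂ →ₐ[ℂ] MK) :
            Polynomial ℂ →+* MK) Polynomial.X = cl ψ (mero_of_diff hψ) := Polynomial.aeval_X _
          rw [h3, h4, Ph_polE, cl_eq]
          exact Eventually.of_forall fun z => by rw [Polynomial.eval_X]
      exact congrArg (fun f : Polynomial ℂ →+* MK => f q) h2
    have h5 : Algebra.adjoin ℂ {cl ψ (mero_of_diff hψ)} ≤ A :=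
      Algebra.adjoin_le (Set.singleton_subset_iff.2 hψA)
    rw [h1]
    exact hAF (h5 (Polynomial.aeval_mem_adjoin_singleton ℂ _))
  have hrelE : ∀ i, polE a * gE i = polE (p i) + ∑ l ∈ I, polE (b i l) * gE l := by
    intro i
    apply Subtype.ext
    have h1 := hrel i
    have h3 := map_sum (EntSub.val : EntSub →+* PowerSeries ℂ) (fun l => polE (b i l) * gE l) I
    have h2 : ((polE (p i) + ∑ l ∈ I, polE (b i l) * gE l : EntSub) : PowerSeries ℂ) =
        (p i : PowerSeries ℂ) + ∑ l ∈ I, (b i l : PowerSeries ℂ) * tser g l :=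
      congrArg (fun A => (p i : PowerSeries ℂ) + A) h3
    rw [h2, ← h1]
    rfl
  have ha0 : Ph hψ (polE a) ≠ 0 := by
    intro h0
    apply ha
    have h1 : polE a = 0 := Ph_inj hψ hn (by rw [h0, map_zero])
    have h2 := congrArg (fun u : EntSub => (u : PowerSeries ℂ)) h1
    exact Polynomial.coe_eq_zero_iff.1 h2
  have h1 := congrArg (Ph hψ) (hrelE i)
  rw [map_mul, map_add, map_sum] at h1
  rw [← hgE i]
  have h2 : Ph hψ (gE i) = (Ph hψ (polE (p i)) + ∑ l ∈ I, Ph hψ (polE (b i l) * gE l)) *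
      (Ph hψ (polE a))⁻¹ := by
    rw [← h1]
    field_simp
  rw [h2]
  refine F.mul_mem (F.add_mem (hpF _) (F.sum_mem fun l hl => ?_)) (F.inv_mem (hpF _))
  rw [map_mul, hgE]
  exact F.mul_mem (hpF _) (hlF ⟨l, hl⟩)

/-- The ring generated by the entire functions built from the constants by additions,
multiplications, exponentials and integrations, and the gap series in `ψ`. -/
noncomputable def ExpGapRing (ψ : ℂ → ℂ) : Subalgebra ℂ (ℂ → ℂ) :=
  Algebra.adjoin ℂ ({u | ExpPrim u} ∪ GapIn ψ)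

theorem gapIn_diff {ψ : ℂ → ℂ} (hψ : Differentiable ℂ ψ) {u : ℂ → ℂ} (hu : u ∈ GapIn ψ) :
    Differentiable ℂ u := by
  obtain ⟨g, hg, rfl⟩ := hu
  exact hg.1.comp hψ

theorem expGapRing_diff {ψ : ℂ → ℂ} (hψ : Differentiable ℂ ψ) {u : ℂ → ℂ}
    (hu : u ∈ ExpGapRing ψ) : Differentiable ℂ u := by
  induction hu using Algebra.adjoin_induction with
  | mem u hu =>
    rcases hu with hu | hu
    · exact hu.diff
    · exact gapIn_diff hψ hu
  | algebraMap c => exact differentiable_const c
  | add u v _ _ h1 h2 => exact h1.add h2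
  | mul u v _ _ h1 h2 => exact h1.mul h2

/-- **Finitely many elements of the ring are rational functions of algebraically independent
functions.** -/
theorem exists_param {ψ : ℂ → ℂ} (hψ : ExpPrim ψ) (hn : NCE ψ) {N : ℕ} {h : ℂ → Fin N → ℂ}
    (hh : ∀ j, (fun z => h z j) ∈ ExpGapRing ψ) :
    ∃ (M : ℕ) (x : Fin M → MK), AlgebraicIndependent ℂ x ∧
      ∀ j, cl (fun z => h z j) (mero_of_diff (expGapRing_diff hψ.diff (hh j))) ∈
        IntermediateField.adjoin ℂ (Set.range x) := by
  classical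
  obtain ⟨n, m, y, g, Q, hy, hg, hQ⟩ := exists_repr_psi {u | ExpPrim u} hh
  obtain ⟨A, hA, hAy⟩ := exists_good_fin (y := fun z => Fin.snoc (y z) (ψ z)) (n := n + 1) (by
    intro i
    refine Fin.lastCases ?_ (fun i => ?_) i
    · simpa only [Fin.snoc_last] using hψ
    · simpa only [Fin.snoc_castSucc, Set.mem_setOf_eq] using hy i)
  have hψA : cl ψ (mero_of_diff hψ.diff) ∈ A := by
    have h1 := hAy (Fin.last n)
    simpa only [Fin.snoc_last] using h1
  have hyA : ∀ i, cl (fun z => y z i) (mero_of_diff (hy i).diff) ∈ A := by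
    intro i
    have h1 := hAy (Fin.castSucc i)
    simpa only [Fin.snoc_castSucc] using h1
  obtain ⟨σ, hσ, s, hs, hsA, hle⟩ := Good.basis expData hA
  obtain ⟨I, hI, hgI⟩ := joint hψ.diff hn hg hs (Good.stable expData hA) hsA hle hψA
  set X := Sum.elim (fun l : I => cl (fun z => g (ψ z) l)
    (mero_of_diff (((hg l).1).comp hψ.diff))) s with hX
  have : Finite (I ⊕ σ) := inferInstance
  obtain ⟨M, ⟨e⟩⟩ := Finite.exists_equiv_fin (I ⊕ σ)
  refine ⟨M, fun i => X (e.symm i), hI.comp _ e.symm.injective, fun j => ?_⟩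
  have hr : Set.range (fun i => X (e.symm i)) = Set.range X :=
    (e.symm.surjective.range_comp X)
  rw [hr]
  set F := IntermediateField.adjoin ℂ (Set.range X) with hF
  have hAF : A ≤ F.toSubalgebra := by
    intro x hx
    have h1 : IntermediateField.adjoin ℂ (Set.range s) ≤ F := by
      apply IntermediateField.adjoin.mono
      rintro _ ⟨i, rfl⟩
      exact ⟨Sum.inr i, rfl⟩
    exact h1 (hle hx)
  have hw : ∀ i : Fin n ⊕ Fin m, Meromorphic ((Sum.elim (fun i z => y z i)
      (fun i z => g (ψ z) i) : Fin n ⊕ Fin m → ℂ → ℂ) i) := by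
    intro i
    rcases i with i | i
    · exact mero_of_diff (hy i).diff
    · exact mero_of_diff (((hg i).1).comp hψ.diff)
  have h1 := aeval_cl (σ := Fin n ⊕ Fin m) (Sum.elim (fun i z => y z i) (fun i z => g (ψ z) i))
    hw (Q j)
  have h2 : cl (fun z => h z j) (mero_of_diff (expGapRing_diff hψ.diff (hh j))) =
      MvPolynomial.aeval (fun i => cl _ (hw i)) (Q j) := by
    rw [h1, cl_eq]
    refine Eventually.of_forall fun z => ?_
    have h3 := hQ z j
    rw [h3]
    congr 2
    funext i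
    rcases i with i | i <;> rfl
  rw [h2]
  have h3 : Algebra.adjoin ℂ (Set.range fun i => cl _ (hw i)) ≤ F.toSubalgebra := by
    apply Algebra.adjoin_le
    rintro _ ⟨i, rfl⟩
    rcases i with i | i
    · exact hAF (hyA i)
    · exact hgI i
  apply h3
  rw [Algebra.adjoin_range_eq_range_aeval]
  exact ⟨Q j, rfl⟩

end Pool.Agent.TH600.LE
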