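import Pool.Agent.TH600.LE.Twr

/-!
# Towers of primitives and exponentials
-/

set_option autoImplicit false

namespace Pool.Agent.TH600.LE

open Polynomial Pool.Agent.TH600.LC

variable {k E U : Type} [Field k] [Field E] [Algebra k E] [AddCommGroup U] [Module k U]

/-- exponential functions for a derivation -/
structure ExpData (D : Derivation k E E) (ι : U →ₗ[k] E) (ex : U → E) : Prop where
  add : ∀ u v, ex (u + v) = ex u * ex v
  zero : ex 0 = 1
  der : ∀ u, D (ex u) = D (ι u) * ex u
  const : ∀ u c, ι u = algebraMap k E c → ∃ c', ex u = algebraMap k E c'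
  hconst : Const D

/-- The subalgebras obtained by adjoining transcendental primitives and exponentials. -/
inductive Good (D : Derivation k E E) (ι : U →ₗ[k] E) (ex : U → E) : Subalgebra k E → Prop
  | base : Good D ι ex ⊥
  | prim {A : Subalgebra k E} {t : E} : Good D ι ex A → Transcendental A t → D t ∈ A →
      Good D ι ex (Pol A t)
  | expo {A : Subalgebra k E} {w : U} : Good D ι ex A → ι w ∈ A → Transcendental A (ex w) →
      Good D ι ex (Lau A (ex w))

section exp

variable {D : Derivation k E E} {ι : U →ₗ[k] E} {ex : U → E}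

namespace ExpData

variable (h : ExpData D ι ex)

include h

theorem neg (u : U) : ex u * ex (-u) = 1 := by
  rw [← h.add, add_neg_cancel, h.zero]

theorem ne (u : U) : ex u ≠ 0 := left_ne_zero_of_mul_eq_one (h.neg u)

theorem inv (u : U) : ex (-u) = (ex u)⁻¹ :=
  eq_inv_of_mul_eq_one_right (h.neg u)

theorem nsmul (n : ℕ) (u : U) : ex (n • u) = ex u ^ n := by
  induction n with
  | zero => rw [zero_smul, pow_zero, h.zero]
  | succ n ih => rw [succ_nsmul, pow_succ, h.add, ih]

/-- equal exponentials up to constants have equal exponents up to constants -/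
theorem exps {u v : U} {c : k} (hc : ex u = algebraMap k E c * ex v) :
    ∃ c', ι u = ι v + algebraMap k E c' := by
  have h1 := congrArg D hc
  rw [h.der, Derivation.leibniz, Derivation.map_algebraMap, smul_zero, add_zero, h.der,
    smul_eq_mul] at h1
  have h2 : D (ι u - ι v) = 0 := by
    rw [map_sub, sub_eq_zero]
    apply mul_right_cancel₀ (h.ne u)
    rw [h1, hc]
    ring
  obtain ⟨c', hc'⟩ := h.hconst _ h2
  exact ⟨c', by rw [← hc']; ring⟩

end ExpData

namespace Good

variable (h : ExpData D ι ex)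

include h

theorem stable {A : Subalgebra k E} (hA : Good D ι ex A) : ∀ x ∈ A, D x ∈ A := by
  induction hA with
  | base =>
    intro x hx
    obtain ⟨c, rfl⟩ := Algebra.mem_bot.1 hx
    rw [Derivation.map_algebraMap]
    exact zero_mem _
  | prim _ _ ht ih => exact stable_Pol ih ht
  | @expo A w _ hw _ ih => exact stable_Lau ih (ih _ hw) (h.der w)

theorem unit_form [CharZero E] {A : Subalgebra k E} (hA : Good D ι ex A) {P a : E} (hP : P ∈ A)
    (hP0 : P ≠ 0) (ha : a ∈ A) (hPa : D P = a * P) :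
    ∃ (w : U) (c : k), ι w ∈ A ∧ ex (-w) ∈ A ∧ P = algebraMap k E c * ex w := by
  induction hA generalizing P a with
  | base =>
    obtain ⟨c, rfl⟩ := Algebra.mem_bot.1 hP
    refine ⟨0, c, ?_, ?_, ?_⟩
    · rw [map_zero]
      exact zero_mem _
    · rw [neg_zero, h.zero]
      exact one_mem _
    · rw [h.zero, mul_one]
  | @prim A t hA htr ht ih =>
    obtain ⟨h1, h2⟩ := desc_prim h.hconst (stable h hA) htr ht hP hP0 ha hPa
    obtain ⟨w, c, h3, h4, h5⟩ := ih h1 hP0 h2 hPa
    exact ⟨w, c, le_Pol A t h3, le_Pol A t h4, h5⟩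
  | @expo A v hA hv htr ih =>
    obtain ⟨m, n, c, b, hc, hb, h1, h2, h3⟩ := desc_expo h.hconst (stable h hA) htr
      (stable h hA _ hv) (h.der v) hP hP0 ha hPa
    obtain ⟨w, c', h4, h5, h6⟩ := ih hc h3 hb h2
    refine ⟨w + n • v + m • (-v), c', ?_, ?_, ?_⟩
    · apply le_Lau A (ex v)
      rw [map_add, map_add, map_nsmul, map_nsmul, map_neg]
      exact A.add_mem (A.add_mem h4 (A.nsmul_mem hv n)) (A.nsmul_mem (A.neg_mem hv) m)
    · have e1 : -(w + n • v + m • (-v)) = -w + n • (-v) + m • v := by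
        rw [smul_neg, smul_neg]
        abel
      rw [e1, h.add, h.add, h.nsmul, h.nsmul, h.inv v]
      exact (Lau A (ex v)).mul_mem ((Lau A (ex v)).mul_mem (le_Lau A _ h5)
        ((Lau A (ex v)).pow_mem (inv_Lau A (h.ne v)) n)) ((Lau A (ex v)).pow_mem (self_Lau A _) m)
    · rw [h.add, h.add, h.nsmul, h.nsmul, h.inv v]
      have h7 : ex v ^ m ≠ 0 := pow_ne_zero _ (h.ne v)
      apply mul_right_cancel₀ h7
      rw [h1, h6]
      rw [show algebraMap k E c' * (ex w * ex v ^ n * (ex v)⁻¹ ^ m) * ex v ^ m =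
        algebraMap k E c' * (ex w * ex v ^ n) * ((ex v)⁻¹ ^ m * ex v ^ m) by ring, ← mul_pow,
        inv_mul_cancel₀ (h.ne v), one_pow]
      ring

end Good

theorem ufd_Pol {A : Subalgebra k E} {t : E} (ht : Transcendental A t)
    (hA : UniqueFactorizationMonoid A) : UniqueFactorizationMonoid (Pol A t) := by
  let f : Polynomial A →+* Pol A t :=
    { toFun := fun p => ⟨aeval t p, p, rfl⟩
      map_one' := Subtype.ext (map_one _)
      map_mul' := fun p q => Subtype.ext (map_mul _ p q)
      map_zero' := Subtype.ext (map_zero _)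
      map_add' := fun p q => Subtype.ext (map_add _ p q) }
  have hf : Function.Bijective f := by
    constructor
    · intro p q hpq
      exact pol_inj ht (congrArg (fun x : Pol A t => (x : E)) hpq)
    · rintro ⟨x, p, rfl⟩
      exact ⟨p, rfl⟩
  exact (RingEquiv.ofBijective f hf).toMulEquiv.uniqueFactorizationMonoid inferInstance

theorem ufd_Lau {A : Subalgebra k E} {t : E} (ht : Transcendental A t) (ht0 : t ≠ 0)
    (hA : UniqueFactorizationMonoid A) : UniqueFactorizationMonoid (Lau A t) := by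
  let f : Polynomial A →+* Lau A t :=
    { toFun := fun p => ⟨aeval t p, Pol_le_Lau A t ⟨p, rfl⟩⟩
      map_one' := Subtype.ext (map_one _)
      map_mul' := fun p q => Subtype.ext (map_mul _ p q)
      map_zero' := Subtype.ext (map_zero _)
      map_add' := fun p q => Subtype.ext (map_add _ p q) }
  let : Algebra (Polynomial A) (Lau A t) := f.toAlgebra
  have hX : ∀ n : ℕ, ((algebraMap (Polynomial A) (Lau A t) (X ^ n) : Lau A t) : E) = t ^ n := by
    intro n
    change aeval t (X ^ n : Polynomial A) = t ^ n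
    rw [map_pow, aeval_X]
  have hloc : IsLocalization (Submonoid.powers (X : Polynomial A)) (Lau A t) := by
    refine ⟨?_, ?_, ?_⟩
    · rintro ⟨_, n, rfl⟩
      refine IsUnit.of_mul_eq_one (⟨t⁻¹ ^ n, (Lau A t).pow_mem (inv_Lau A ht0) n⟩ : Lau A t) ?_
      apply Subtype.ext
      change ((algebraMap (Polynomial A) (Lau A t) (X ^ n) : Lau A t) : E) * t⁻¹ ^ n = 1
      rw [hX, ← mul_pow, mul_inv_cancel₀ ht0, one_pow]
    · rintro ⟨x, n, p, hp⟩
      refine ⟨⟨p, ⟨X ^ n, n, rfl⟩⟩, ?_⟩
      apply Subtype.ext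
      change x * ((algebraMap (Polynomial A) (Lau A t) (X ^ n) : Lau A t) : E) = aeval t p
      rw [hX, hp]
    · intro p q hpq
      refine ⟨1, ?_⟩
      rw [pol_inj ht (congrArg (fun x : Lau A t => (x : E)) hpq)]
  exact UniqueFactorizationMonoid.of_isLocalization (Submonoid.powers (X : Polynomial A)) (Lau A t)

theorem Good.ufd (h : ExpData D ι ex) {A : Subalgebra k E} (hA : Good D ι ex A) :
    UniqueFactorizationMonoid A := by
  induction hA with
  | base =>
    exact (Algebra.botEquivOfInjective (algebraMap k E).injective).symm.toMulEquiv.uniqueFactorizationMonoid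
      inferInstance
  | prim _ ht _ ih => exact ufd_Pol ht ih
  | @expo A w _ _ ht ih => exact ufd_Lau ht (h.ne w) ih

/-- Algebraic exponentials. -/
theorem alg_expo [CharZero E] (hD : Const D) {A : Subalgebra k E} (hA : ∀ x ∈ A, D x ∈ A)
    {y b : E} (hb : b ∈ A) (hy0 : y ≠ 0) (hy : D y = b * y) (halg : IsAlgebraic A y) :
    ∃ (n : ℕ) (P Q : E), 0 < n ∧ P ∈ A ∧ Q ∈ A ∧ Q ≠ 0 ∧ y ^ n * Q = P := by
  classical
  have hex : ∃ n, ∃ p : Polynomial A, p ≠ 0 ∧ aeval y p = 0 ∧ p.natDegree = n := by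
    obtain ⟨p, h1, h2⟩ := halg
    exact ⟨_, p, h1, h2, rfl⟩
  obtain ⟨p, hp0, hpy, hpn⟩ := Nat.find_spec hex
  set n := Nat.find hex with hn
  have hmin : ∀ q : Polynomial A, aeval y q = 0 → q.natDegree < n → q = 0 := by
    intro q h1 h2
    by_contra h3
    exact Nat.find_min hex h2 ⟨q, h3, h1, rfl⟩
  have hcn : (p.coeff n : E) ≠ 0 := by
    intro h0
    apply hp0
    rw [← leadingCoeff_eq_zero, leadingCoeff, hpn]
    exact Subtype.ext h0
  have hn0 : 0 < n := by
    rw [Nat.pos_iff_ne_zero]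
    intro h0
    rw [h0] at hpn hcn
    rw [eq_C_of_natDegree_eq_zero hpn, aeval_C] at hpy
    exact hcn hpy
  have hc0 : (p.coeff 0 : E) ≠ 0 := by
    intro h0
    have h1 : X ∣ p := X_dvd_iff.2 (Subtype.ext h0)
    obtain ⟨q, rfl⟩ := h1
    have hq0 : q ≠ 0 := right_ne_zero_of_mul hp0
    rw [map_mul, aeval_X] at hpy
    rw [natDegree_mul X_ne_zero hq0, natDegree_X] at hpn
    exact hq0 (hmin q ((mul_eq_zero.1 hpy).resolve_left hy0) (by omega))
  obtain ⟨p₁, h1, h2⟩ := der_expo hA hb hy p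
  rw [hpy, map_zero] at h1
  let e : A := ⟨D (p.coeff n) + n * p.coeff n * b, A.add_mem (hA _ (p.coeff n).2)
    (A.mul_mem (A.mul_mem (natCast_mem A n) (p.coeff n).2) hb)⟩
  have h3 : C (p.coeff n) * p₁ - C e * p = 0 := by
    apply hmin
    · rw [map_sub, map_mul, map_mul, ← h1, hpy, mul_zero, mul_zero, sub_zero]
    · have h4 : (C (p.coeff n) * p₁ - C e * p).natDegree ≤ n - 1 := by
        rw [natDegree_le_iff_coeff_eq_zero]
        intro i hi
        rw [coeff_sub, coeff_C_mul, coeff_C_mul]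
        apply Subtype.ext
        push_cast
        rcases Nat.lt_or_ge n i with h5 | h5
        · rw [h2, coeff_eq_zero_of_natDegree_lt (show p.natDegree < i by omega)]
          simp
        · have h6 : i = n := by omega
          rw [h6, h2]
          ring
      omega
  have h4 := congrArg (fun r => ((r.coeff 0 : A) : E)) h3
  simp only [coeff_sub, coeff_C_mul, coeff_zero] at h4
  push_cast at h4
  rw [h2] at h4
  simp only [Nat.cast_zero, zero_mul, add_zero] at h4
  set cn : E := (p.coeff n : E) with hcn'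
  set c0 : E := (p.coeff 0 : E) with hc0'
  obtain ⟨z, hz⟩ : ∃ z : E, z * c0 = y ^ n * cn := ⟨_, div_mul_cancel₀ _ hc0⟩
  have h5 := congrArg D hz
  rw [Derivation.leibniz, Derivation.leibniz, Derivation.leibniz_pow, hy] at h5
  simp only [smul_eq_mul, nsmul_eq_mul] at h5
  have h6 : y ^ (n - 1) * (b * y) = b * y ^ n := by
    obtain ⟨m, hm⟩ : ∃ m, n = m + 1 := ⟨n - 1, by omega⟩
    rw [hm, Nat.add_sub_cancel]
    ring
  rw [h6] at h5
  have h7 : D z * (c0 * cn) = 0 := by
    linear_combination cn * h5 - z * h4 - (D cn + n * cn * b) * hz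
  have h8 := (mul_eq_zero.1 h7).resolve_right (mul_ne_zero hc0 hcn)
  obtain ⟨c, hc⟩ := hD z h8
  refine ⟨n, algebraMap k E c * c0, cn, hn0, A.mul_mem (A.algebraMap_mem c) (p.coeff 0).2,
    (p.coeff n).2, hcn, ?_⟩
  rw [← hc, hz]

/-- Algebraic primitives. -/
theorem alg_prim [CharZero E] (hD : Const D) {A : Subalgebra k E} (hA : ∀ x ∈ A, D x ∈ A)
    {y b : E} (hb : b ∈ A) (hy : D y = b) (halg : IsAlgebraic A y) :
    ∃ (P Q : E), P ∈ A ∧ Q ∈ A ∧ Q ≠ 0 ∧ y * Q = P := by
  classical
  have hex : ∃ n, ∃ p : Polynomial A, p ≠ 0 ∧ aeval y p = 0 ∧ p.natDegree = n := by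
    obtain ⟨p, h1, h2⟩ := halg
    exact ⟨_, p, h1, h2, rfl⟩
  obtain ⟨p, hp0, hpy, hpn⟩ := Nat.find_spec hex
  set n := Nat.find hex with hn
  have hmin : ∀ q : Polynomial A, aeval y q = 0 → q.natDegree < n → q = 0 := by
    intro q h1 h2
    by_contra h3
    exact Nat.find_min hex h2 ⟨q, h3, h1, rfl⟩
  have hcn : (p.coeff n : E) ≠ 0 := by
    intro h0
    apply hp0
    rw [← leadingCoeff_eq_zero, leadingCoeff, hpn]
    exact Subtype.ext h0
  have hn0 : 0 < n := by
    rw [Nat.pos_iff_ne_zero]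
    intro h0
    rw [h0] at hpn hcn
    rw [eq_C_of_natDegree_eq_zero hpn, aeval_C] at hpy
    exact hcn hpy
  obtain ⟨m, hm⟩ : ∃ m, n = m + 1 := ⟨n - 1, by omega⟩
  obtain ⟨p₁, h1, h2⟩ := der_prim hA hb hy p
  rw [hpy, map_zero] at h1
  let e : A := ⟨D (p.coeff n), hA _ (p.coeff n).2⟩
  have h3 : C (p.coeff n) * p₁ - C e * p = 0 := by
    apply hmin
    · rw [map_sub, map_mul, map_mul, ← h1, hpy, mul_zero, mul_zero, sub_zero]
    · have h4 : (C (p.coeff n) * p₁ - C e * p).natDegree ≤ m := by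
        rw [natDegree_le_iff_coeff_eq_zero]
        intro i hi
        rw [coeff_sub, coeff_C_mul, coeff_C_mul]
        apply Subtype.ext
        push_cast
        rw [h2, coeff_eq_zero_of_natDegree_lt (show p.natDegree < i + 1 by omega)]
        rcases Nat.lt_or_ge n i with h5 | h5
        · rw [coeff_eq_zero_of_natDegree_lt (show p.natDegree < i by omega)]
          simp
        · have h6 : i = n := by omega
          rw [h6]
          simp only [ZeroMemClass.coe_zero, mul_zero, zero_mul, add_zero, e]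
          ring
      omega
  have h4 := congrArg (fun r => ((r.coeff m : A) : E)) h3
  simp only [coeff_sub, coeff_C_mul, coeff_zero] at h4
  push_cast at h4
  rw [h2] at h4
  rw [← hm] at h4
  set cn : E := (p.coeff n : E) with hcn'
  set cm : E := (p.coeff m : E) with hcm'
  have he : (e : E) = D cn := rfl
  rw [he] at h4
  have hm1 : ((m : E) + 1) ≠ 0 := Nat.cast_add_one_ne_zero m
  have h8 : D ((m : E) + 1) = 0 := by
    rw [map_add, Derivation.map_natCast, Derivation.map_one_eq_zero, add_zero]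
  obtain ⟨z, hz⟩ : ∃ z : E, z * ((m + 1) * cn) = (m + 1) * cn * y + cm :=
    ⟨_, div_mul_cancel₀ _ (mul_ne_zero hm1 hcn)⟩
  have h5 := congrArg D hz
  simp only [Derivation.leibniz, map_add, smul_eq_mul, hy, Derivation.map_natCast,
    Derivation.map_one_eq_zero] at h5
  have h7 : D z * ((m + 1) * cn * cn) = 0 := by
    linear_combination cn * h5 + h4 - D cn * hz
  have h9 := (mul_eq_zero.1 h7).resolve_right (mul_ne_zero (mul_ne_zero hm1 hcn) hcn)
  obtain ⟨c, hc⟩ := hD z h9
  refine ⟨algebraMap k E c * ((m + 1) * cn) - cm, (m + 1) * cn, ?_, ?_, mul_ne_zero hm1 hcn, ?_⟩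
  · exact A.sub_mem (A.mul_mem (A.algebraMap_mem c) (A.mul_mem (A.add_mem (natCast_mem A m)
      A.one_mem) (p.coeff n).2)) (p.coeff m).2
  · exact A.mul_mem (A.add_mem (natCast_mem A m) A.one_mem) (p.coeff n).2
  · rw [← hc, hz]
    ring

end exp

end Pool.Agent.TH600.LE
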