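import Pool.Agent.TH600.LE.Good

/-!
# Roots of exponentials and primitives in towers
-/

set_option autoImplicit false

namespace Pool.Agent.TH600.LE

open Polynomial Pool.Agent.TH600.LC

variable {k E U : Type} [Field k] [Field E] [Algebra k E] [AddCommGroup U] [Module k U]

theorem mem_cloA {A : Subalgebra k E} {x : E} : x ∈ clo k (A : Set E) ↔ IsAlgebraic A x := by
  rw [mem_clo, Algebra.adjoin_eq]

theorem trans_ext {A A' : Subalgebra k E} (hle : ∀ x ∈ A', IsAlgebraic A x) {t : E}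
    (ht : Transcendental A t) : Transcendental A' t := by
  intro h
  apply ht
  rw [← mem_cloA] at h ⊢
  exact clo_le (fun x hx => mem_cloA.2 (hle x hx)) h

variable {D : Derivation k E E} {ι : U →ₗ[k] E} {ex : U → E}

theorem ExpData.inv_smul (h : ExpData D ι ex) [CharZero k] {n : ℕ} (hn : 0 < n) (u : U) :
    ex ((n : k)⁻¹ • u) ^ n = ex u := by
  rw [← h.nsmul, ← Nat.cast_smul_eq_nsmul k, smul_smul,
    mul_inv_cancel₀ (Nat.cast_ne_zero.2 (Nat.pos_iff_ne_zero.1 hn)), one_smul]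

/-- Roots of all exponentials. -/
theorem Good.scale [CharZero k] [CharZero E] (h : ExpData D ι ex) {A : Subalgebra k E}
    (hA : Good D ι ex A) {N : ℕ} (hN : 0 < N) :
    ∃ A' : Subalgebra k E, Good D ι ex A' ∧ A ≤ A' ∧ (∀ x ∈ A', IsAlgebraic A x) ∧
      ∀ w, ι w ∈ A → ex w ∈ A → ex ((N : k)⁻¹ • w) ∈ A' := by
  induction hA with
  | base =>
    refine ⟨⊥, Good.base, le_rfl, fun x hx => ?_, fun w hw _ => ?_⟩
    · exact isAlgebraic_algebraMap (⟨x, hx⟩ : (⊥ : Subalgebra k E))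
    · obtain ⟨c, hc⟩ := Algebra.mem_bot.1 hw
      obtain ⟨c', hc'⟩ := h.const ((N : k)⁻¹ • w) ((N : k)⁻¹ * c) (by
        rw [map_smul, ← hc, Algebra.smul_def, map_mul])
      rw [hc']
      exact Subalgebra.algebraMap_mem _ _
  | @prim A t hA htr ht ih =>
    obtain ⟨A', hA', hle, halg, hroot⟩ := ih
    refine ⟨Pol A' t, Good.prim hA' (trans_ext halg htr) (hle ht),
      Pol_le (hle.trans (le_Pol A' t)) (self_Pol A' t), fun x hx => ?_, fun w hw hew => ?_⟩
    · rw [← mem_cloA]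
      have h1 : A' ≤ clo k (Pol A t : Set E) := by
        intro y hy
        have h2 : y ∈ clo k (A : Set E) := mem_cloA.2 (halg y hy)
        exact clo_mono (le_Pol A t) h2
      exact Pol_le h1 (subset_clo _ (self_Pol A t)) hx
    · apply le_Pol A' t
      have h1 : D (ex w) = D (ι w) * ex w := h.der w
      obtain ⟨h2, h3⟩ := desc_prim h.hconst (Good.stable h hA) htr ht hew (h.ne w)
        (stable_Pol (Good.stable h hA) ht _ hw) h1
      obtain ⟨w₁, c, h4, h5, h6⟩ := Good.unit_form h hA h2 (h.ne w) h3 h1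
      obtain ⟨c', hc'⟩ := h.exps h6
      exact hroot w (by rw [hc']; exact A.add_mem h4 (A.algebraMap_mem c')) h2
  | @expo A v hA hv htr ih =>
    obtain ⟨A', hA', hle, halg, hroot⟩ := ih
    set s : E := ex ((N : k)⁻¹ • v) with hs
    have hsN : s ^ N = ex v := h.inv_smul hN v
    have hs0 : s ≠ 0 := h.ne _
    have htr' : Transcendental A' s := by
      intro h1
      apply trans_ext halg htr
      rw [← hsN]
      exact h1.pow N
    have hsalg : s ∈ clo k (Lau A (ex v) : Set E) := by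
      rw [mem_cloA]
      apply IsAlgebraic.of_pow hN
      rw [hsN]
      exact isAlgebraic_algebraMap (⟨ex v, self_Lau A (ex v)⟩ : Lau A (ex v))
    refine ⟨Lau A' s, Good.expo hA' ?_ htr', ?_, fun x hx => ?_, fun w hw hew => ?_⟩
    · rw [map_smul]
      exact A'.smul_mem (hle hv) _
    · refine Lau_le (hle.trans (le_Lau A' s)) (h.ne v) ?_ ?_
      · rw [← hsN]
        exact (Lau A' s).pow_mem (self_Lau A' s) N
      · rw [← hsN, ← inv_pow]
        exact (Lau A' s).pow_mem (inv_Lau A' hs0) N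
    · rw [← mem_cloA]
      have h1 : A' ≤ clo k (Lau A (ex v) : Set E) := by
        intro y hy
        have h2 : y ∈ clo k (A : Set E) := mem_cloA.2 (halg y hy)
        exact clo_mono (le_Lau A (ex v)) h2
      exact Lau_le h1 hs0 hsalg (inv_mem_clo hsalg) hx
    · have h1 : D (ex w) = D (ι w) * ex w := h.der w
      obtain ⟨m, n, c, b, hc, hb, h2, h3, h4⟩ := desc_expo h.hconst (Good.stable h hA) htr
        (Good.stable h hA _ hv) (h.der v) hew (h.ne w)
        (stable_Lau (Good.stable h hA) (Good.stable h hA _ hv) (h.der v) _ hw) h1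
      set w' : U := w + m • v + n • (-v) with hw'
      have h5 : ex w' = c := by
        rw [hw', h.add, h.add, h.nsmul, h.nsmul, h.inv, h2, mul_assoc, ← mul_pow,
          mul_inv_cancel₀ (h.ne v), one_pow, mul_one]
      obtain ⟨w₁, c₁, h6, h7, h8⟩ := Good.unit_form h hA hc h4 hb h3
      rw [← h5] at h8
      obtain ⟨c', hc'⟩ := h.exps h8
      have h9 := hroot w' (by rw [hc']; exact A.add_mem h6 (A.algebraMap_mem c')) (by rwa [h5])
      have h10 : (N : k)⁻¹ • w = (N : k)⁻¹ • w' + m • (-((N : k)⁻¹ • v)) +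
          n • ((N : k)⁻¹ • v) := by
        rw [hw', smul_add, smul_add, smul_comm ((N : k)⁻¹) m v, smul_comm ((N : k)⁻¹) n (-v),
          smul_neg, smul_neg, smul_neg]
        abel
      rw [h10, h.add, h.add, h.nsmul, h.nsmul, h.inv]
      exact (Lau A' s).mul_mem ((Lau A' s).mul_mem (le_Lau A' s h9)
        ((Lau A' s).pow_mem (inv_Lau A' hs0) m)) ((Lau A' s).pow_mem (self_Lau A' s) n)

/-- reduced fractions -/
theorem reduced {A : Subalgebra k E} (hu : UniqueFactorizationMonoid A) {x P Q : E} (hP : P ∈ A)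
    (hQ : Q ∈ A) (hQ0 : Q ≠ 0) (hx : x * Q = P) :
    ∃ P' Q' : A, IsRelPrime P' Q' ∧ (Q' : E) ≠ 0 ∧ x * Q' = P' := by
  obtain ⟨P', Q', g, h1, h2, h3⟩ := UniqueFactorizationMonoid.exists_reduced_factors'
    (⟨P, hP⟩ : A) (⟨Q, hQ⟩ : A) (fun h0 => hQ0 (congrArg (fun r : A => (r : E)) h0))
  have h4 : (g : E) * P' = P := congrArg (fun r : A => (r : E)) h2
  have h5 : (g : E) * Q' = Q := congrArg (fun r : A => (r : E)) h3
  have h6 : (g : E) ≠ 0 := fun h0 => hQ0 (by rw [← h5, h0, zero_mul])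
  refine ⟨P', Q', h1, fun h0 => hQ0 (by rw [← h5, h0, mul_zero]), ?_⟩
  apply mul_left_cancel₀ h6
  rw [h4, ← hx, ← h5]
  ring

/-- **Algebraic exponentials over towers.** -/
theorem Good.root [CharZero k] [CharZero E] (h : ExpData D ι ex) {A : Subalgebra k E}
    (hA : Good D ι ex A) {u : U} (hu : ι u ∈ A) (halg : IsAlgebraic A (ex u)) :
    ∃ A' : Subalgebra k E, Good D ι ex A' ∧ A ≤ A' ∧ ex u ∈ A' := by
  have hst := Good.stable h hA
  have hufd := Good.ufd h hA
  obtain ⟨n, P, Q, hn, hP, hQ, hQ0, hPQ⟩ := alg_expo h.hconst hst (hst _ hu) (h.ne u) (h.der u) halg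
  obtain ⟨P', Q', hrel, hQ', hx⟩ := reduced hufd hP hQ hQ0 hPQ
  have hP' : (P' : E) ≠ 0 := by
    rw [← hx]
    exact mul_ne_zero (pow_ne_zero _ (h.ne u)) hQ'
  have hd : D (ex u ^ n) = n * D (ι u) * ex u ^ n := by
    rw [← h.nsmul, h.der, map_nsmul, map_nsmul, nsmul_eq_mul]
  have h1 := congrArg D hx
  rw [Derivation.leibniz, hd] at h1
  simp only [smul_eq_mul] at h1
  have h2 : (n : E) * D (ι u) * P' * Q' + P' * D Q' = Q' * D P' := by
    rw [← h1, ← hx]
    ring
  let DP : A := ⟨D P', hst _ P'.2⟩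
  let DQ : A := ⟨D Q', hst _ Q'.2⟩
  let Du : A := ⟨D (ι u), hst _ hu⟩
  have h3 : (n : A) * Du * P' * Q' + P' * DQ = Q' * DP := by
    apply Subtype.ext
    push_cast
    exact h2
  have h4 : Q' ∣ DQ := by
    have h5 : Q' ∣ P' * DQ := ⟨DP - (n : A) * Du * P', by linear_combination h3⟩
    exact hrel.symm.dvd_of_dvd_mul_left h5
  have h5 : P' ∣ DP := by
    have h5 : P' ∣ Q' * DP := ⟨(n : A) * Du * Q' + DQ, by linear_combination -h3⟩
    exact hrel.dvd_of_dvd_mul_left h5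
  obtain ⟨a, ha⟩ := h4
  obtain ⟨b, hb⟩ := h5
  have ha' : D (Q' : E) = a * Q' := by
    have := congrArg (fun r : A => (r : E)) ha
    simp only [MulMemClass.coe_mul, DQ] at this
    rw [this, mul_comm]
  have hb' : D (P' : E) = b * P' := by
    have := congrArg (fun r : A => (r : E)) hb
    simp only [MulMemClass.coe_mul, DP] at this
    rw [this, mul_comm]
  obtain ⟨w₁, c₁, hw₁, hiw₁, hPw⟩ := Good.unit_form h hA P'.2 hP' b.2 hb'
  obtain ⟨w₂, c₂, hw₂, hiw₂, hQw⟩ := Good.unit_form h hA Q'.2 hQ' a.2 ha'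
  have hc₁ : c₁ ≠ 0 := by
    rintro rfl
    rw [map_zero, zero_mul] at hPw
    exact hP' hPw
  have hc₂ : c₂ ≠ 0 := by
    rintro rfl
    rw [map_zero, zero_mul] at hQw
    exact hQ' hQw
  have hew₁ : ex w₁ ∈ A := by
    have h6 : ex w₁ = algebraMap k E c₁⁻¹ * P' := by
      rw [hPw, ← mul_assoc, ← map_mul, inv_mul_cancel₀ hc₁, map_one, one_mul]
    rw [h6]
    exact A.mul_mem (A.algebraMap_mem _) P'.2
  -- the exponents
  have h6 : ex (n • u) = algebraMap k E (c₁ * c₂⁻¹) * ex (w₁ + -w₂) := by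
    rw [h.nsmul, h.add, h.inv w₂]
    apply mul_right_cancel₀ hQ'
    rw [hx, hPw, hQw]
    have h7 : algebraMap k E c₂ ≠ 0 := by
      rw [Ne, map_eq_zero]
      exact hc₂
    have h8 := h.ne w₂
    rw [map_mul, map_inv₀]
    field_simp
  obtain ⟨c₃, hc₃⟩ := h.exps h6
  set w : U := (n : k)⁻¹ • (w₁ + -w₂) with hw
  have hnk : (n : k) ≠ 0 := Nat.cast_ne_zero.2 (Nat.pos_iff_ne_zero.1 hn)
  have h7 : ι (u + -w) = algebraMap k E ((n : k)⁻¹ * c₃) := by
    have h8 : ι u = (n : k)⁻¹ • ι (n • u) := by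
      rw [map_nsmul, ← Nat.cast_smul_eq_nsmul k, smul_smul, inv_mul_cancel₀ hnk, one_smul]
    rw [hw, map_add, map_neg, map_smul, h8, hc₃, smul_add,
      Algebra.smul_def _ (algebraMap k E c₃), ← map_mul]
    ring
  obtain ⟨c₄, hc₄⟩ := h.const _ _ h7
  obtain ⟨A', hA', hle, -, hroot⟩ := Good.scale h hA hn
  refine ⟨A', hA', hle, ?_⟩
  have h8 : u = (u + -w) + ((n : k)⁻¹ • w₁ + (n : k)⁻¹ • (-w₂)) := by
    rw [hw, smul_add]
    abel
  rw [h8, h.add, hc₄, h.add]
  exact A'.mul_mem (A'.algebraMap_mem _) (A'.mul_mem (hroot w₁ hw₁ hew₁)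
    (hroot (-w₂) (by rw [map_neg]; exact A.neg_mem hw₂) hiw₂))

/-- **Algebraic primitives over towers.** -/
theorem Good.prim_mem [CharZero E] (h : ExpData D ι ex) {A : Subalgebra k E}
    (hA : Good D ι ex A) {y : E} (hy : D y ∈ A) (halg : IsAlgebraic A y) : y ∈ A := by
  have hst := Good.stable h hA
  have hufd := Good.ufd h hA
  obtain ⟨P, Q, hP, hQ, hQ0, hPQ⟩ := alg_prim h.hconst hst hy rfl halg
  obtain ⟨P', Q', hrel, hQ', hx⟩ := reduced hufd hP hQ hQ0 hPQ
  have h1 := congrArg D hx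
  rw [Derivation.leibniz] at h1
  simp only [smul_eq_mul] at h1
  have h2 : D y * Q' * Q' + P' * D Q' = Q' * D P' := by
    rw [← h1, ← hx]
    ring
  let DP : A := ⟨D P', hst _ P'.2⟩
  let DQ : A := ⟨D Q', hst _ Q'.2⟩
  let Dy : A := ⟨D y, hy⟩
  have h3 : Dy * Q' * Q' + P' * DQ = Q' * DP := by
    apply Subtype.ext
    push_cast
    exact h2
  have h4 : Q' ∣ DQ := by
    have h5 : Q' ∣ P' * DQ := ⟨DP - Dy * Q', by linear_combination h3⟩
    exact hrel.symm.dvd_of_dvd_mul_left h5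
  obtain ⟨a, ha⟩ := h4
  have ha' : D (Q' : E) = a * Q' := by
    have := congrArg (fun r : A => (r : E)) ha
    simp only [MulMemClass.coe_mul, DQ] at this
    rw [this, mul_comm]
  obtain ⟨w₂, c₂, hw₂, hiw₂, hQw⟩ := Good.unit_form h hA Q'.2 hQ' a.2 ha'
  have hc₂ : c₂ ≠ 0 := by
    rintro rfl
    rw [map_zero, zero_mul] at hQw
    exact hQ' hQw
  have h7 : algebraMap k E c₂ ≠ 0 := by
    rw [Ne, map_eq_zero]
    exact hc₂
  have h8 : y = P' * (algebraMap k E c₂⁻¹ * ex (-w₂)) := by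
    rw [h.inv, map_inv₀]
    apply mul_right_cancel₀ hQ'
    rw [hx, hQw]
    have h9 := h.ne w₂
    field_simp
  rw [h8]
  exact A.mul_mem P'.2 (A.mul_mem (A.algebraMap_mem _) hiw₂)

end Pool.Agent.TH600.LE
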