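import Pool.Agent.TH600.LC.Diff

/-!
# Towers of primitives and exponentials: polynomial and Laurent polynomial extensions
-/

set_option autoImplicit false

namespace Pool.Agent.TH600.LE

open Polynomial Pool.Agent.TH600.LC

variable {k E : Type} [Field k] [Field E] [Algebra k E]

/-- the subalgebra generated by `A` and `t` -/
def Pol (A : Subalgebra k E) (t : E) : Subalgebra k E where
  carrier := {x | ∃ p : Polynomial A, x = aeval t p}
  mul_mem' := by
    rintro _ _ ⟨p, rfl⟩ ⟨q, rfl⟩
    exact ⟨p * q, by rw [map_mul]⟩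
  add_mem' := by
    rintro _ _ ⟨p, rfl⟩ ⟨q, rfl⟩
    exact ⟨p + q, by rw [map_add]⟩
  algebraMap_mem' := fun c => ⟨C (algebraMap k A c), by rw [aeval_C]; rfl⟩

/-- the subalgebra generated by `A`, `t` and the inverse of `t` -/
def Lau (A : Subalgebra k E) (t : E) : Subalgebra k E where
  carrier := {x | ∃ (n : ℕ) (p : Polynomial A), x * t ^ n = aeval t p}
  mul_mem' := by
    rintro x y ⟨n, p, hp⟩ ⟨m, q, hq⟩
    exact ⟨n + m, p * q, by rw [map_mul, ← hp, ← hq]; ring⟩
  add_mem' := by
    rintro x y ⟨n, p, hp⟩ ⟨m, q, hq⟩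
    refine ⟨n + m, p * X ^ m + q * X ^ n, ?_⟩
    rw [map_add, map_mul, map_mul, ← hp, ← hq, map_pow, map_pow, aeval_X]
    ring
  algebraMap_mem' := fun c => ⟨0, C (algebraMap k A c), by
    rw [aeval_C, pow_zero, mul_one]; rfl⟩

theorem mem_Pol {A : Subalgebra k E} {t x : E} :
    x ∈ Pol A t ↔ ∃ p : Polynomial A, x = aeval t p := Iff.rfl

theorem mem_Lau {A : Subalgebra k E} {t x : E} :
    x ∈ Lau A t ↔ ∃ (n : ℕ) (p : Polynomial A), x * t ^ n = aeval t p := Iff.rfl

theorem le_Pol (A : Subalgebra k E) (t : E) : A ≤ Pol A t :=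
  fun x hx => ⟨C ⟨x, hx⟩, by rw [aeval_C]; rfl⟩

theorem self_Pol (A : Subalgebra k E) (t : E) : t ∈ Pol A t := ⟨X, by rw [aeval_X]⟩

theorem Pol_le_Lau (A : Subalgebra k E) (t : E) : Pol A t ≤ Lau A t := by
  rintro x ⟨p, rfl⟩
  exact ⟨0, p, by rw [pow_zero, mul_one]⟩

theorem le_Lau (A : Subalgebra k E) (t : E) : A ≤ Lau A t := (le_Pol A t).trans (Pol_le_Lau A t)

theorem self_Lau (A : Subalgebra k E) (t : E) : t ∈ Lau A t := Pol_le_Lau A t (self_Pol A t)

theorem inv_Lau (A : Subalgebra k E) {t : E} (ht : t ≠ 0) : t⁻¹ ∈ Lau A t :=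
  ⟨1, 1, by rw [pow_one, inv_mul_cancel₀ ht, map_one]⟩

theorem Pol_le {A B : Subalgebra k E} {t : E} (h : A ≤ B) (ht : t ∈ B) : Pol A t ≤ B := by
  rintro x ⟨p, rfl⟩
  rw [aeval_eq_sum_range]
  refine B.sum_mem fun i _ => ?_
  rw [Algebra.smul_def]
  exact B.mul_mem (h (p.coeff i).2) (B.pow_mem ht i)

theorem Lau_le {A B : Subalgebra k E} {t : E} (h : A ≤ B) (ht0 : t ≠ 0) (ht : t ∈ B)
    (ht' : t⁻¹ ∈ B) : Lau A t ≤ B := by
  rintro x ⟨n, p, hp⟩
  have h1 : aeval t p ∈ B := Pol_le h ht ⟨p, rfl⟩
  have h2 : x = aeval t p * t⁻¹ ^ n := by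
    rw [← hp, mul_assoc, ← mul_pow, mul_inv_cancel₀ ht0, one_pow, mul_one]
  rw [h2]
  exact B.mul_mem h1 (B.pow_mem ht' n)

variable {D : Derivation k E E}

/-- the derivative of a polynomial in a primitive -/
theorem der_prim {A : Subalgebra k E} (hA : ∀ x ∈ A, D x ∈ A) {t v : E} (hv : v ∈ A)
    (ht : D t = v) (p : Polynomial A) : ∃ q : Polynomial A, D (aeval t p) = aeval t q ∧
      ∀ i, ((q.coeff i : A) : E) = D (p.coeff i : E) + (i + 1) * (p.coeff (i + 1) : E) * v := by
  induction p using Polynomial.induction_on' with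
  | add p q hp hq =>
    obtain ⟨p', h1, h2⟩ := hp
    obtain ⟨q', h3, h4⟩ := hq
    refine ⟨p' + q', by rw [map_add, map_add, h1, h3, map_add], fun i => ?_⟩
    rw [coeff_add, coeff_add, coeff_add]
    push_cast
    rw [h2, h4, map_add]
    ring
  | monomial n a =>
    refine ⟨monomial n ⟨D a, hA a a.2⟩ + monomial (n - 1) ((n : A) * a * ⟨v, hv⟩), ?_,
      fun i => ?_⟩
    · rw [map_add, aeval_monomial, aeval_monomial, aeval_monomial, Derivation.leibniz,
        Derivation.leibniz_pow, ht]
      simp only [smul_eq_mul, nsmul_eq_mul]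
      have e1 : (algebraMap A E) a = (a : E) := rfl
      have e2 : (algebraMap A E) (⟨D a, hA a a.2⟩ : A) = D (a : E) := rfl
      have e3 : (algebraMap A E) ((n : A) * a * ⟨v, hv⟩) = (n : E) * a * v := by
        rw [map_mul, map_mul, map_natCast]
        rfl
      rw [e1, e2, e3]
      ring
    · rw [coeff_add, coeff_monomial, coeff_monomial, coeff_monomial, coeff_monomial]
      push_cast
      rcases n with _ | n
      · rw [if_neg (show ¬ (0 = i + 1) by omega)]
        by_cases h1 : 0 = i
        · subst h1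
          simp
        · simp [h1]
      · by_cases h1 : n + 1 = i
        · have h2 : ¬ (n + 1 - 1 = i) := by omega
          have h3 : ¬ (n + 1 = i + 1) := by omega
          rw [if_pos h1, if_neg h2, if_pos h1, if_neg h3]
          simp
        · by_cases h2 : n = i
          · have h3 : n + 1 - 1 = i := by omega
            have h4 : n + 1 = i + 1 := by omega
            rw [if_neg h1, if_pos h3, if_neg h1, if_pos h4, ← h2]
            simp
          · have h3 : ¬ (n + 1 - 1 = i) := by omega
            have h4 : ¬ (n + 1 = i + 1) := by omega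
            rw [if_neg h1, if_neg h3, if_neg h1, if_neg h4]
            simp

/-- the derivative of a polynomial in an exponential -/
theorem der_expo {A : Subalgebra k E} (hA : ∀ x ∈ A, D x ∈ A) {t v : E} (hv : v ∈ A)
    (ht : D t = v * t) (p : Polynomial A) : ∃ q : Polynomial A, D (aeval t p) = aeval t q ∧
      ∀ i, ((q.coeff i : A) : E) = D (p.coeff i : E) + i * (p.coeff i : E) * v := by
  induction p using Polynomial.induction_on' with
  | add p q hp hq =>
    obtain ⟨p', h1, h2⟩ := hp
    obtain ⟨q', h3, h4⟩ := hq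
    refine ⟨p' + q', by rw [map_add, map_add, h1, h3, map_add], fun i => ?_⟩
    rw [coeff_add, coeff_add]
    push_cast
    rw [h2, h4, map_add]
    ring
  | monomial n a =>
    refine ⟨monomial n (⟨D a, hA a a.2⟩ + (n : A) * a * ⟨v, hv⟩), ?_, fun i => ?_⟩
    · rw [aeval_monomial, aeval_monomial, Derivation.leibniz, Derivation.leibniz_pow, ht]
      simp only [smul_eq_mul, nsmul_eq_mul]
      have e1 : (algebraMap A E) a = (a : E) := rfl
      have e3 : (algebraMap A E) (⟨D a, hA a a.2⟩ + (n : A) * a * ⟨v, hv⟩) =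
          D (a : E) + (n : E) * a * v := by
        rw [map_add, map_mul, map_mul, map_natCast]
        rfl
      rw [e1, e3]
      rcases n with _ | n
      · simp
      · rw [Nat.add_sub_cancel]
        ring
    · rw [coeff_monomial, coeff_monomial]
      by_cases h1 : n = i
      · rw [if_pos h1, if_pos h1, h1]
        push_cast
        rfl
      · rw [if_neg h1, if_neg h1]
        simp

theorem stable_Pol {A : Subalgebra k E} (hA : ∀ x ∈ A, D x ∈ A) {t : E} (ht : D t ∈ A) :
    ∀ x ∈ Pol A t, D x ∈ Pol A t := by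
  rintro x ⟨p, rfl⟩
  obtain ⟨q, hq, -⟩ := der_prim hA ht rfl p
  exact ⟨q, hq⟩

theorem stable_Lau {A : Subalgebra k E} (hA : ∀ x ∈ A, D x ∈ A) {t v : E} (hv : v ∈ A) (ht : D t = v * t) : ∀ x ∈ Lau A t, D x ∈ Lau A t := by
  rintro x ⟨n, p, hp⟩
  obtain ⟨q, hq, -⟩ := der_expo hA hv ht p
  have h1 : D x * t ^ n + (n : E) * v * (x * t ^ n) = aeval t q := by
    rw [← hq, ← hp, Derivation.leibniz, Derivation.leibniz_pow, ht]
    simp only [smul_eq_mul, nsmul_eq_mul]
    rcases n with _ | n
    · simp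
    · rw [Nat.add_sub_cancel]
      ring
  refine ⟨n, q - C ((n : A) * ⟨v, hv⟩) * p, ?_⟩
  rw [map_sub, map_mul, aeval_C, ← h1, hp, map_mul, map_natCast]
  have e1 : (algebraMap A E) (⟨v, hv⟩ : A) = v := rfl
  rw [e1]
  ring

theorem pol_inj {A : Subalgebra k E} {t : E} (h : Transcendental A t) {p q : Polynomial A}
    (hpq : aeval t p = aeval t q) : p = q := transcendental_iff_injective.1 h hpq

/-- the constants of the derivation -/
def Const (D : Derivation k E E) : Prop := ∀ x, D x = 0 → ∃ c, x = algebraMap k E c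

/-- Elements of a polynomial extension which divide their derivatives. -/
theorem desc_prim [CharZero E] (hD : Const D) {A : Subalgebra k E} (hA : ∀ x ∈ A, D x ∈ A) {t : E}
    (htr : Transcendental A t) (ht : D t ∈ A) {P a : E} (hP : P ∈ Pol A t) (hP0 : P ≠ 0)
    (ha : a ∈ Pol A t) (h : D P = a * P) : P ∈ A ∧ a ∈ A := by
  obtain ⟨p, rfl⟩ := hP
  obtain ⟨q, rfl⟩ := ha
  obtain ⟨p₁, hp₁, hc⟩ := der_prim hA ht rfl p
  have hp0 : p ≠ 0 := fun h0 => hP0 (by rw [h0, map_zero])
  have h1 : p₁ = q * p := pol_inj htr (by rw [← hp₁, h, map_mul])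
  have h2 : p₁.natDegree ≤ p.natDegree := by
    rw [natDegree_le_iff_coeff_eq_zero]
    intro i hi
    apply Subtype.ext
    rw [hc, coeff_eq_zero_of_natDegree_lt hi, coeff_eq_zero_of_natDegree_lt (by omega)]
    simp
  have h3 : q = C (q.coeff 0) := by
    by_cases hq : q = 0
    · rw [hq]; simp
    · rw [h1, natDegree_mul hq hp0] at h2
      exact eq_C_of_natDegree_eq_zero (by omega)
  have h4 : ∀ i, D (p.coeff i : E) + (i + 1) * (p.coeff (i + 1) : E) * D t =
      (q.coeff 0 : E) * p.coeff i := by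
    intro i
    rw [← hc, h1, h3, coeff_C_mul]
    simp
  have haq : aeval t q = (q.coeff 0 : E) := by
    rw [h3, aeval_C, coeff_C_zero]
    rfl
  refine ⟨?_, by rw [haq]; exact (q.coeff 0).2⟩
  obtain ⟨n, hn⟩ : ∃ n, p.natDegree = n := ⟨_, rfl⟩
  rcases n with _ | n
  · rw [eq_C_of_natDegree_eq_zero hn, aeval_C]
    exact (p.coeff 0).2
  · exfalso
    have hcn : (p.coeff (n + 1) : E) ≠ 0 := by
      intro h0
      apply hp0
      rw [← leadingCoeff_eq_zero, leadingCoeff, hn]
      exact Subtype.ext h0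
    have h5 := h4 (n + 1)
    rw [coeff_eq_zero_of_natDegree_lt (show p.natDegree < n + 1 + 1 by omega)] at h5
    have h6 := h4 n
    simp only [ZeroMemClass.coe_zero, mul_zero, zero_mul, add_zero] at h5
    set cn : E := (p.coeff (n + 1) : E) with hcn'
    set cm : E := (p.coeff n : E)
    set q0 : E := (q.coeff 0 : E)
    obtain ⟨z, hz⟩ : ∃ z : E, z * cn = cm + (n + 1) * t * cn := ⟨_, div_mul_cancel₀ _ hcn⟩
    have h7 := congrArg D hz
    rw [Derivation.leibniz, map_add, Derivation.leibniz, Derivation.leibniz] at h7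
    have h8 : D ((n : E) + 1) = 0 := by
      rw [map_add, Derivation.map_natCast, Derivation.map_one_eq_zero, add_zero]
    simp only [smul_eq_mul, h8] at h7
    have h9 : D z * cn = 0 := by
      linear_combination h7 - z * h5 - q0 * hz + h6 + (n + 1) * t * h5
    have h10 := (mul_eq_zero.1 h9).resolve_right hcn
    obtain ⟨c, hc'⟩ := hD z h10
    rw [hc'] at hz
    apply htr
    refine ⟨C (((n + 1 : ℕ) : A) * p.coeff (n + 1)) * X +
      C (p.coeff n - algebraMap k A c * p.coeff (n + 1)), ?_, ?_⟩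
    · intro h0
      have h11 := congrArg (fun r => coeff r 1) h0
      simp only [coeff_add, coeff_C_mul, coeff_X_one, mul_one, coeff_C_succ, add_zero,
        coeff_zero] at h11
      have h12 := congrArg (fun r : A => (r : E)) h11
      simp only [ZeroMemClass.coe_zero] at h12
      push_cast at h12
      rcases mul_eq_zero.1 h12 with h13 | h13
      · exact (Nat.cast_add_one_ne_zero n) h13
      · exact hcn h13
    · rw [map_add, map_mul, aeval_C, aeval_C, aeval_X]
      have e1 : (algebraMap A E) (((n + 1 : ℕ) : A) * p.coeff (n + 1)) = ((n : E) + 1) * cn := by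
        rw [map_mul, map_natCast]
        push_cast
        rfl
      have e2 : (algebraMap A E) (p.coeff n - algebraMap k A c * p.coeff (n + 1)) =
          cm - algebraMap k E c * cn := by
        rw [map_sub, map_mul]
        rfl
      rw [e1, e2]
      linear_combination -hz

/-- Elements of a Laurent polynomial extension which divide their derivatives. -/
theorem desc_expo [CharZero E] (hD : Const D) {A : Subalgebra k E} (hA : ∀ x ∈ A, D x ∈ A)
    {t v : E} (htr : Transcendental A t) (hv : v ∈ A) (ht : D t = v * t) {P a : E}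
    (hP : P ∈ Lau A t) (hP0 : P ≠ 0) (ha : a ∈ Lau A t) (h : D P = a * P) :
    ∃ (m n : ℕ) (c b : E), c ∈ A ∧ b ∈ A ∧ P * t ^ m = c * t ^ n ∧ D c = b * c ∧ c ≠ 0 := by
  obtain ⟨m, p, hp⟩ := hP
  obtain ⟨l, q, hq⟩ := ha
  have ht0 : t ≠ 0 := by
    rintro rfl
    exact htr isAlgebraic_zero
  obtain ⟨p₁, hp₁, hc⟩ := der_expo hA hv ht p
  have hp0 : p ≠ 0 := by
    intro h0
    rw [h0, map_zero] at hp
    exact (mul_ne_zero hP0 (pow_ne_zero _ ht0)) hp
  have hDp : D (aeval t p) = (a + m * v) * aeval t p := by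
    rw [← hp, Derivation.leibniz, Derivation.leibniz_pow, ht, h]
    simp only [smul_eq_mul, nsmul_eq_mul]
    rcases m with _ | m
    · simp
    · rw [Nat.add_sub_cancel]
      ring
  set Q : Polynomial A := q + C ((m : A) * ⟨v, hv⟩) * X ^ l with hQ
  have h1 : X ^ l * p₁ = Q * p := by
    apply pol_inj htr
    rw [map_mul, map_pow, aeval_X, ← hp₁, hDp, map_mul, hQ, map_add, map_mul, aeval_C, map_pow,
      aeval_X, ← hq, map_mul, map_natCast]
    have e1 : (algebraMap A E) (⟨v, hv⟩ : A) = v := rfl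
    rw [e1]
    ring
  have h2 : p₁.natDegree ≤ p.natDegree := by
    rw [natDegree_le_iff_coeff_eq_zero]
    intro i hi
    apply Subtype.ext
    rw [hc, coeff_eq_zero_of_natDegree_lt hi]
    simp
  have h3 : ∃ c : A, Q = C c * X ^ l := by
    by_cases hp1 : p₁ = 0
    · refine ⟨0, ?_⟩
      rw [hp1, mul_zero] at h1
      rw [(mul_eq_zero.1 h1.symm).resolve_right hp0, C_0, zero_mul]
    · have hQ0 : Q ≠ 0 := by
        intro h0
        rw [h0, zero_mul] at h1
        exact (mul_ne_zero (pow_ne_zero _ X_ne_zero) hp1) h1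
      have h4 := congrArg natDegree h1
      rw [natDegree_mul (pow_ne_zero _ X_ne_zero) hp1, natDegree_mul hQ0 hp0, natDegree_X_pow]
        at h4
      have h5 := congrArg natTrailingDegree h1
      rw [natTrailingDegree_mul (pow_ne_zero _ X_ne_zero) hp1, natTrailingDegree_mul hQ0 hp0,
        natTrailingDegree_X_pow] at h5
      have h6 : p.natTrailingDegree ≤ p₁.natTrailingDegree := by
        apply le_natTrailingDegree hp1
        intro i hi
        apply Subtype.ext
        rw [hc, coeff_eq_zero_of_lt_natTrailingDegree hi]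
        simp
      refine ⟨Q.coeff l, ?_⟩
      ext1 i
      rw [coeff_C_mul, coeff_X_pow]
      rcases lt_trichotomy i l with hi | hi | hi
      · rw [if_neg (by omega), mul_zero]
        exact coeff_eq_zero_of_lt_natTrailingDegree (by omega)
      · rw [if_pos hi, mul_one, hi]
      · rw [if_neg (by omega), mul_zero]
        exact coeff_eq_zero_of_natDegree_lt (by omega)
  obtain ⟨q0, hq0⟩ := h3
  have h4 : p₁ = C q0 * p := by
    rw [hq0, mul_comm (C q0), mul_assoc] at h1
    exact mul_left_cancel₀ (pow_ne_zero _ X_ne_zero) h1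
  have h5 : ∀ i, D (p.coeff i : E) + i * (p.coeff i : E) * v = (q0 : E) * p.coeff i := by
    intro i
    rw [← hc, h4, coeff_C_mul]
    rfl
  set n := p.natDegree with hn
  have hcn : (p.coeff n : E) ≠ 0 := by
    intro h0
    apply hp0
    rw [← leadingCoeff_eq_zero, leadingCoeff, ← hn]
    exact Subtype.ext h0
  have h6 : ∀ j, j ≠ n → p.coeff j = 0 := by
    intro j hj
    by_contra hcj
    have hcj' : (p.coeff j : E) ≠ 0 := fun h0 => hcj (Subtype.ext h0)
    obtain ⟨z, hz⟩ : ∃ z : E, z * ((p.coeff n : E) * t ^ n) = p.coeff j * t ^ j :=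
      ⟨_, div_mul_cancel₀ _ (mul_ne_zero hcn (pow_ne_zero _ ht0))⟩
    have hmon : ∀ i, D ((p.coeff i : E) * t ^ i) = (q0 : E) * ((p.coeff i : E) * t ^ i) := by
      intro i
      rw [Derivation.leibniz, Derivation.leibniz_pow, ht]
      simp only [smul_eq_mul, nsmul_eq_mul]
      have h7 := h5 i
      rcases i with _ | i
      · simp at h7 ⊢
        rw [h7]
      · rw [Nat.add_sub_cancel]
        linear_combination t ^ (i + 1) * h7
    have h7 := congrArg D hz
    rw [Derivation.leibniz, hmon, hmon] at h7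
    simp only [smul_eq_mul] at h7
    have h8 : D z * ((p.coeff n : E) * t ^ n) = 0 := by
      linear_combination h7 - (q0 : E) * hz
    have h9 := (mul_eq_zero.1 h8).resolve_right (mul_ne_zero hcn (pow_ne_zero _ ht0))
    obtain ⟨c, hc'⟩ := hD z h9
    rw [hc'] at hz
    apply htr
    refine ⟨C (p.coeff j) * X ^ j - C (algebraMap k A c * p.coeff n) * X ^ n, ?_, ?_⟩
    · intro h0
      have h11 := congrArg (fun r => coeff r j) h0
      simp only [coeff_sub, coeff_C_mul, coeff_X_pow, if_neg hj, mul_zero, coeff_zero] at h11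
      rw [if_true, mul_one, sub_zero] at h11
      exact hcj h11
    · rw [map_sub, map_mul, map_mul, aeval_C, aeval_C, map_pow, map_pow, aeval_X]
      have e1 : (algebraMap A E) (p.coeff j) = (p.coeff j : E) := rfl
      have e2 : (algebraMap A E) (algebraMap k A c * p.coeff n) =
          algebraMap k E c * p.coeff n := by
        rw [map_mul]
        rfl
      rw [e1, e2]
      linear_combination -hz
  have h7 : aeval t p = (p.coeff n : E) * t ^ n := by
    have h8 : p = monomial n (p.coeff n) := by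
      ext1 i
      rw [coeff_monomial]
      by_cases hi : n = i
      · rw [if_pos hi, hi]
      · rw [if_neg hi, h6 i (Ne.symm hi)]
    conv_lhs => rw [h8, aeval_monomial]
    rfl
  refine ⟨m, n, p.coeff n, q0 - n * v, (p.coeff n).2,
    A.sub_mem q0.2 (A.mul_mem (natCast_mem A n) hv), by rw [hp, h7], ?_, hcn⟩
  linear_combination h5 n

end Pool.Agent.TH600.LE
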